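import Pool.Agent.helper67.AZ.P7

/-! MP_cf8c5a_ag: from `Fin 3 → ℂ` to `ℂ × ℂ × ℂ`. -/

open MeasureTheory

namespace Pool.Agent.helper67.AZ

/-- `z ↦ (z 0, z 1, z 2)`. -/
noncomputable def fin3 : (Fin 3 → ℂ) ≃ᵐ ℂ × ℂ × ℂ :=
  (MeasurableEquiv.piFinSuccAbove (fun _ => ℂ) 0).trans
    ((MeasurableEquiv.refl ℂ).prodCongr MeasurableEquiv.finTwoArrow)

theorem fin3_apply (z : Fin 3 → ℂ) : fin3 z = (z 0, z 1, z 2) := rfl

theorem fin3_preserving : MeasurePreserving (fin3 : (Fin 3 → ℂ) → ℂ × ℂ × ℂ) volume volume := by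
  have h1 : MeasurePreserving (MeasurableEquiv.piFinSuccAbove (fun _ : Fin 3 => ℂ) 0)
      volume volume := volume_preserving_piFinSuccAbove (fun _ => ℂ) 0
  have h2 : MeasurePreserving (MeasurableEquiv.finTwoArrow : (Fin 2 → ℂ) ≃ᵐ ℂ × ℂ)
      volume volume := volume_preserving_finTwoArrow ℂ
  have h3 : MeasurePreserving (Prod.map (id : ℂ → ℂ)
      (MeasurableEquiv.finTwoArrow : (Fin 2 → ℂ) ≃ᵐ ℂ × ℂ)) volume volume :=
    (MeasurePreserving.id volume).prod h2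
  exact h3.comp h1

/-- `(x, y, z) ↦ ![x, y, z]`. -/
def vec3 (p : ℂ × ℂ × ℂ) : Fin 3 → ℂ := ![p.1, p.2.1, p.2.2]

theorem vec3_fin3 (z : Fin 3 → ℂ) : vec3 (fin3 z) = z := by
  rw [fin3_apply]
  unfold vec3
  ext i
  fin_cases i <;> rfl

theorem integral_fin3 (F : ℂ × ℂ × ℂ → ℂ) : ∫ z : Fin 3 → ℂ, F (fin3 z) = ∫ p, F p :=
  fin3_preserving.integral_comp fin3.measurableEmbedding F

/-- `vec3` as a homeomorphism. -/
def vec3Homeo : (ℂ × ℂ × ℂ) ≃ₜ (Fin 3 → ℂ) where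
  toFun := vec3
  invFun z := (z 0, z 1, z 2)
  left_inv p := rfl
  right_inv z := by
    unfold vec3
    ext i
    fin_cases i <;> rfl
  continuous_toFun := by
    unfold vec3
    refine continuous_pi fun i => ?_
    fin_cases i <;> simp <;> fun_prop
  continuous_invFun := by fun_prop

theorem vec3_contDiff {n : WithTop ℕ∞} : ContDiff ℝ n vec3 := by
  unfold vec3
  rw [contDiff_pi]
  intro i
  fin_cases i
  · exact contDiff_fst
  · exact contDiff_fst.comp contDiff_snd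
  · exact contDiff_snd.comp contDiff_snd

theorem lip_of_contDiff {φ : (Fin 3 → ℂ) → ℂ} (h1 : ContDiff ℝ 1 φ) (h2 : HasCompactSupport φ) :
    (∃ L : NNReal, LipschitzWith L (φ ∘ vec3)) ∧ HasCompactSupport (φ ∘ vec3) := by
  have h3 : HasCompactSupport (φ ∘ vec3) := h2.comp_homeomorph vec3Homeo
  refine ⟨?_, h3⟩
  exact ContDiff.lipschitzWith_of_hasCompactSupport h3 (h1.comp vec3_contDiff) (by simp)

theorem cpow_eq_pw {s : ℂ} (hs : s ≠ 0) (x : ℂ) : ((‖x‖ : ℝ) : ℂ) ^ s = pw s x := by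
  by_cases hx : x = 0
  · subst hx
    rw [norm_zero, Complex.ofReal_zero, Complex.zero_cpow hs, pw_zero]
  · have hp : 0 < ‖x‖ := norm_pos_iff.2 hx
    rw [pw, if_neg hx, Complex.cpow_def_of_ne_zero (Complex.ofReal_ne_zero.2 hp.ne'),
      ← Complex.ofReal_log hp.le, mul_comm]

theorem pw_pow_nat (s x : ℂ) (k : ℕ) (hk : k ≠ 0) : pw s (x ^ k) = pw (k * s) x := by
  by_cases hx : x = 0
  · subst hx
    rw [zero_pow hk, pw_zero, pw_zero]
  · rw [pw, pw, if_neg hx, if_neg (pow_ne_zero _ hx), norm_pow, Real.log_pow]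
    congr 1
    push_cast
    ring

/-- integral formula for the zeta function in the coordinates `(x, y, z)`. -/
theorem zeta_eq {t : ℝ} {f : (Fin 3 → ℂ) → ℂ}
    (hf : ∀ z, f z = (z 0) ^ 3 * (z 0 - z 2) * (z 2) ^ 2 * (z 1) * mf t (z 0) (z 1) (z 2))
    (φ : (Fin 3 → ℂ) → ℂ) {s : ℂ} (hs : 0 < s.re) :
    ∫ z, ((‖f z‖ : ℝ) : ℂ) ^ (2 * s) * φ z = Zf t (φ ∘ vec3) s := by
  have hs0 : 2 * s ≠ 0 := by
    intro h
    have : s = 0 := by simpa using h
    rw [this] at hs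
    simp at hs
  rw [Zf, ← integral_fin3]
  congr 1
  ext z
  rw [cpow_eq_pw hs0, hf, pw_mul, pw_mul, pw_mul, pw_mul, pw_pow_nat _ _ 3 (by norm_num),
    pw_pow_nat _ _ 2 (by norm_num), Function.comp_apply, vec3_fin3, fin3_apply]
  simp only
  have e1 : ((3 : ℕ) : ℂ) * (2 * s) = 6 * s := by push_cast; ring
  have e2 : ((2 : ℕ) : ℂ) * (2 * s) = 4 * s := by push_cast; ring
  rw [e1, e2]

end Pool.Agent.helper67.AZ
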