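import Pool.Agent.helper67.AZ.P7
import Pool.Agent.helper31.AZ.P5
import Pool.Agent.helper31.AZ.P6

/-! MP_cf8c5a_ag: assembly of the analytic part. -/

open MeasureTheory

namespace Pool.Agent.helper67.AZ

theorem dom_integrable {t : ℝ} (ht : 0 < t) (ht1 : t < 1) (R : ℝ) : Integrable (Dom t R) := sorry

theorem H_integrable {t : ℝ} (ht : 0 ≤ t) (ht1 : t ≤ 1) : Integrable (gH t) := sorry

theorem pw_differentiable (x : ℂ) (c : ℂ) : Differentiable ℂ (fun s => pw (c * s) x) := by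
  unfold pw
  split_ifs
  · exact differentiable_const _
  · fun_prop

theorem Ef_differentiable (t : ℝ) (φ : ℂ × ℂ × ℂ → ℂ) (p : ℂ × ℂ × ℂ) :
    Differentiable ℂ (fun s => Ef t φ s p) := by
  have h6 := fun x => pw_differentiable x 6
  have h4 := fun x => pw_differentiable x 4
  have h2 := fun x => pw_differentiable x 2
  unfold Ef Xi Kf Nf
  fun_prop

theorem core {t : ℝ} (ht : 0 < t) (ht1 : t < 1) (hH : H t = 0) {φ : ℂ × ℂ × ℂ → ℂ} {L : NNReal}
    (hL : LipschitzWith L φ) (hφ : HasCompactSupport φ) :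
    DifferentiableOn ℂ (Wf t φ) {s : ℂ | -(19 / 50) < s.re} ∧
    (∀ s : ℂ, 0 < s.re → Wf t φ s = ((2 : ℂ) ^ (-16 * s - 6) - 1) *
      ((2 : ℂ) ^ (-12 * s - 4) - 1) * ((2 : ℂ) ^ (-6 * s - 2) - 1) * Zf t φ s) ∧
    Wf t φ (-(3 / 8)) = 0 := by
  refine ⟨?_, ?_, ?_⟩
  · apply Pool.Agent.helper31.AZ.differentiableOn_integral volume
      (isOpen_lt continuous_const Complex.continuous_re) (fun s => Ef t φ s)
    · intro s _
      exact (Ef_measurable t hL.continuous s).aestronglyMeasurable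
    · intro x
      exact (Ef_differentiable t φ x).differentiableOn
    · intro s₀ hs₀
      obtain ⟨C, R, hC, hR, hb⟩ := dom_bound ht ht1 hL hφ (‖s₀‖ + 1)
      refine ⟨1, one_pos, fun x => C * Dom t R x, (dom_integrable ht ht1 R).const_mul C, ?_⟩
      intro s hs hsU x
      refine hb s (le_of_lt hsU) ?_ x
      rw [Metric.mem_ball, dist_eq_norm] at hs
      calc ‖s‖ = ‖s₀ + (s - s₀)‖ := by ring_nf
        _ ≤ ‖s₀‖ + ‖s - s₀‖ := norm_add_le _ _
        _ ≤ _ := by linarith
  · intro s hs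
    exact Pool.Agent.helper31.AZ.Wf_eq hL.continuous hφ hs
  · apply Wf_zero_of (H_integrable ht.le ht1.le) hL hφ _ hH
    obtain ⟨C, R, hC, hR, hb⟩ := dom_bound ht ht1 hL hφ 1
    refine Integrable.mono' ((dom_integrable ht ht1 R).const_mul C)
      (Ef_measurable t hL.continuous _).aestronglyMeasurable
      (Filter.Eventually.of_forall fun p => hb _ ?_ ?_ p)
    · norm_num
    · norm_num

end Pool.Agent.helper67.AZ
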