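import Mathlib

/-!
MP_cf8c5a_ag: the arrangement f = x^3 (x-z) z^2 y (y-(1-t)z-tx) in C^3 (degree 8), points are
written p = (x, y, z).  Definitions used in the proof that -3/8 is not a pole of the archimedean
zeta function for a suitable t in (0,1).
-/

open MeasureTheory

namespace Pool.Agent.helper67.AZ

/-- `|x|^s`, with value `0` at `x = 0`. -/
noncomputable def pw (s : ℂ) (x : ℂ) : ℂ :=
  if x = 0 then 0 else Complex.exp (s * ((Real.log ‖x‖ : ℝ) : ℂ))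

/-- the fifth linear form. -/
noncomputable def mf (t : ℝ) (x y z : ℂ) : ℂ := y - (1 - (t : ℂ)) * z - (t : ℂ) * x

/-- `φ(2P) - φ(P)`. -/
noncomputable def D0 (φ : ℂ × ℂ × ℂ → ℂ) (x y z : ℂ) : ℂ :=
  φ (2 * x, 2 * y, 2 * z) - φ (x, y, z)

noncomputable def Nf (t : ℝ) (φ : ℂ × ℂ × ℂ → ℂ) (s x y z : ℂ) : ℂ :=
  pw (2 * s) y * pw (2 * s) (mf t x y z) * D0 φ x y z

noncomputable def Kf (s x z : ℂ) : ℂ := pw (2 * s) (x - z) * pw (4 * s) z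

noncomputable def Xi (t : ℝ) (φ : ℂ × ℂ × ℂ → ℂ) (s x y z : ℂ) : ℂ :=
  Kf s x z * (Nf t φ s (2 * x) y (2 * z) - Nf t φ s x y z)

noncomputable def Ef (t : ℝ) (φ : ℂ × ℂ × ℂ → ℂ) (s : ℂ) (p : ℂ × ℂ × ℂ) : ℂ :=
  pw (6 * s) p.1 * (Xi t φ s (2 * p.1) p.2.1 p.2.2 - Xi t φ s p.1 p.2.1 p.2.2)

noncomputable def Wf (t : ℝ) (φ : ℂ × ℂ × ℂ → ℂ) (s : ℂ) : ℂ := ∫ p, Ef t φ s p

/-- the archimedean zeta function of the arrangement (with the convention `pw` at zero). -/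
noncomputable def Zf (t : ℝ) (φ : ℂ × ℂ × ℂ → ℂ) (s : ℂ) : ℂ :=
  ∫ p : ℂ × ℂ × ℂ, pw (6 * s) p.1 * pw (2 * s) (p.1 - p.2.2) * pw (4 * s) p.2.2 *
    pw (2 * s) p.2.1 * pw (2 * s) (mf t p.1 p.2.1 p.2.2) * φ p

/-- the regularised one-variable integral whose vanishing kills the residue. -/
noncomputable def H (t : ℝ) : ℝ :=
  ∫ u : ℂ, ‖u‖ ^ (-(9 / 4) : ℝ) *
    (‖u - 1‖ ^ (-(3 / 4) : ℝ) * ‖(1 - (t : ℂ)) + (t : ℂ) * u‖ ^ ((1 / 2) : ℝ)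
      - (1 - t) ^ ((1 / 2) : ℝ))

/-- the dominating function (without the constant). -/
noncomputable def Dom (t R : ℝ) (p : ℂ × ℂ × ℂ) : ℝ :=
  if ‖p.1‖ ≤ R ∧ ‖p.2.1‖ ≤ R ∧ ‖p.2.2‖ ≤ R then
    ‖p.1‖ ^ (-(32 / 25) : ℝ) * ‖p.2.2‖ ^ (-(38 / 25) : ℝ) *
    (‖2 * p.1 - p.2.2‖ ^ (-(44 / 25) : ℝ) + ‖p.1 - p.2.2‖ ^ (-(44 / 25) : ℝ)) *
    (‖p.1‖ + ‖p.2.2‖) * ‖p.2.1‖ ^ (-(19 / 25) : ℝ) *
    (‖p.1‖ + ‖p.2.1‖ + ‖p.2.2‖) ^ ((1 / 10) : ℝ) *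
    (‖mf t (4 * p.1) p.2.1 (2 * p.2.2)‖ ^ (-(44 / 25) : ℝ)
      + ‖mf t (2 * p.1) p.2.1 p.2.2‖ ^ (-(44 / 25) : ℝ)
      + ‖mf t (2 * p.1) p.2.1 (2 * p.2.2)‖ ^ (-(44 / 25) : ℝ)
      + ‖mf t p.1 p.2.1 p.2.2‖ ^ (-(44 / 25) : ℝ))
  else 0

end Pool.Agent.helper67.AZ
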