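import Mathlib

/-! MP_cf8c5a_ag: the argument with meromorphic continuations. -/

namespace Pool.Agent.helper67.AZ

theorem exists_G {W c Z : ℂ → ℂ} {σ : ℝ} {z0 : ℂ} (hz0 : σ < z0.re) (hz0' : z0.re ≤ 0)
    (hW : DifferentiableOn ℂ W {s : ℂ | σ < s.re}) (hc : Differentiable ℂ c) (hcz : c z0 = 0)
    (hc' : deriv c z0 ≠ 0) (hW0 : W z0 = 0) (hc0 : ∀ s : ℂ, 0 < s.re → c s ≠ 0)
    (hWZ : ∀ s : ℂ, 0 < s.re → W s = c s * Z s) :
    ∃ G : ℂ → ℂ, MeromorphicOn G {s : ℂ | σ < s.re} ∧ (∀ s : ℂ, 0 < s.re → G s = Z s) ∧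
      AnalyticAt ℂ G z0 := by
  have hopen : IsOpen {s : ℂ | σ < s.re} := isOpen_lt continuous_const Complex.continuous_re
  have hW1 : DifferentiableOn ℂ (dslope W z0) {s : ℂ | σ < s.re} :=
    (Complex.differentiableOn_dslope (hopen.mem_nhds hz0)).2 hW
  have hc1 : DifferentiableOn ℂ (dslope c z0) Set.univ :=
    (Complex.differentiableOn_dslope Filter.univ_mem).2 hc.differentiableOn
  have hWa : AnalyticOnNhd ℂ (dslope W z0) {s : ℂ | σ < s.re} := hW1.analyticOnNhd hopen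
  have hca : AnalyticOnNhd ℂ (dslope c z0) Set.univ := hc1.analyticOnNhd isOpen_univ
  refine ⟨fun s => dslope W z0 s / dslope c z0 s, ?_, ?_, ?_⟩
  · intro s hs
    exact (hWa s hs).meromorphicAt.div (hca s (Set.mem_univ _)).meromorphicAt
  · intro s hs
    have hne : s ≠ z0 := by
      rintro rfl
      linarith
    have hsub : s - z0 ≠ 0 := sub_ne_zero.2 hne
    simp only
    rw [dslope_of_ne _ hne, dslope_of_ne _ hne, slope_def_field, slope_def_field, hW0, hcz,
      sub_zero, sub_zero, hWZ s hs]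
    have := hc0 s hs
    field_simp
  · apply (hWa z0 hz0).div (hca z0 (Set.mem_univ _))
    rw [dslope_same]
    exact hc'

theorem no_pole {G F Z : ℂ → ℂ} {σ : ℝ} {z0 : ℂ} (hσ : σ < 0) (hz0 : σ < z0.re)
    (hG : MeromorphicOn G {s : ℂ | σ < s.re}) (hGZ : ∀ s : ℂ, 0 < s.re → G s = Z s)
    (hGa : AnalyticAt ℂ G z0) (hF : ∀ s, MeromorphicAt F s)
    (hFZ : ∀ s : ℂ, 0 < s.re → F s = Z s) : 0 ≤ meromorphicOrderAt F z0 := by
  have hD : MeromorphicOn (F - G) {s : ℂ | σ < s.re} := fun s hs => (hF s).sub (hG s hs)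
  have hconn : IsPreconnected {s : ℂ | σ < s.re} := (convex_halfSpace_re_gt σ).isPreconnected
  have h1 : meromorphicOrderAt (F - G) 1 = ⊤ := by
    rw [meromorphicOrderAt_eq_top_iff]
    have : {s : ℂ | 0 < s.re} ∈ nhds (1 : ℂ) :=
      (isOpen_lt continuous_const Complex.continuous_re).mem_nhds (by simp)
    apply Filter.Eventually.filter_mono nhdsWithin_le_nhds
    filter_upwards [this] with s hs
    show F s - G s = 0
    rw [hFZ s hs, hGZ s hs, sub_self]
  have h2 : meromorphicOrderAt (F - G) z0 = ⊤ := by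
    by_contra h
    exact (hD.meromorphicOrderAt_ne_top_of_isPreconnected hconn hz0
      (show (1 : ℂ) ∈ {s : ℂ | σ < s.re} by simp; linarith) h) h1
  rw [meromorphicOrderAt_eq_top_iff] at h2
  have h3 : F =ᶠ[nhdsWithin z0 {z0}ᶜ] G := by
    filter_upwards [h2] with s hs
    exact sub_eq_zero.1 hs
  rw [meromorphicOrderAt_congr h3]
  exact hGa.meromorphicOrderAt_nonneg

end Pool.Agent.helper67.AZ
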