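import Pool.Agent.helper67.AZ.Defs

/-! MP_cf8c5a_ag, P1: calculus of `pw`. -/

open MeasureTheory

namespace Pool.Agent.helper67.AZ

theorem pw_zero (s : ℂ) : pw s 0 = 0 := by simp [pw]

theorem pw_norm {s x : ℂ} (hx : x ≠ 0) : ‖pw s x‖ = ‖x‖ ^ s.re := by
  rw [pw, if_neg hx, Complex.norm_exp, Real.rpow_def_of_pos (norm_pos_iff.2 hx)]
  congr 1
  simp [mul_comm]

theorem pw_mul (s x y : ℂ) : pw s (x * y) = pw s x * pw s y := by
  by_cases hx : x = 0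
  · simp [hx, pw]
  by_cases hy : y = 0
  · simp [hy, pw]
  rw [pw, pw, pw, if_neg hx, if_neg hy, if_neg (mul_ne_zero hx hy), ← Complex.exp_add, norm_mul,
    Real.log_mul (norm_ne_zero_iff.2 hx) (norm_ne_zero_iff.2 hy)]
  push_cast
  congr 1
  ring

/-- constant in the upper bound. -/
noncomputable def cA (κ R M : ℝ) : ℝ := (max 1 R) ^ (M + |κ|)

theorem cA_nonneg (κ R M : ℝ) : 0 ≤ cA κ R M :=
  Real.rpow_nonneg (le_trans zero_le_one (le_max_left _ _)) _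

theorem rpow_le_cA {κ R M a r : ℝ} (ha : κ ≤ a) (haM : a ≤ M) (hr : 0 < r) (hrR : r ≤ R) :
    r ^ a ≤ cA κ R M * r ^ κ := by
  have h1 : r ^ a = r ^ (a - κ) * r ^ κ := by
    rw [← Real.rpow_add hr]; ring_nf
  rw [h1]
  apply mul_le_mul_of_nonneg_right _ (Real.rpow_nonneg hr.le _)
  have hm : 1 ≤ max 1 R := le_max_left _ _
  calc r ^ (a - κ) ≤ (max 1 R) ^ (a - κ) :=
        Real.rpow_le_rpow hr.le (hrR.trans (le_max_right _ _)) (by linarith)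
    _ ≤ (max 1 R) ^ (M + |κ|) := by
        apply Real.rpow_le_rpow_of_exponent_le hm
        have := neg_abs_le κ
        linarith

theorem pw_le {κ R M : ℝ} {s : ℂ} (hs : κ ≤ s.re) (hM : ‖s‖ ≤ M) {A : ℂ} (hA : ‖A‖ ≤ R) :
    ‖pw s A‖ ≤ cA κ R M * ‖A‖ ^ κ := by
  by_cases h0 : A = 0
  · subst h0
    rw [pw_zero, norm_zero]
    exact mul_nonneg (cA_nonneg _ _ _) (Real.rpow_nonneg le_rfl _)
  · rw [pw_norm h0]
    exact rpow_le_cA hs ((Complex.re_le_norm s).trans hM) (norm_pos_iff.2 h0) hA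

/-- constant in the difference bound. -/
noncomputable def cB (κ R M : ℝ) : ℝ := 2 * cA κ R M + cA κ R M * (M * Real.exp M)

theorem cB_nonneg {κ R M : ℝ} (hM : 0 ≤ M) : 0 ≤ cB κ R M := by
  have := cA_nonneg κ R M
  unfold cB
  positivity

theorem pw_diff_aux {κ R M : ℝ} {s : ℂ} (hs : κ ≤ s.re) (hM : ‖s‖ ≤ M) {A B : ℂ}
    (hA : ‖A‖ ≤ R) (hB : ‖B‖ ≤ R) (hAB : ‖B‖ ≤ ‖A‖) :
    ‖pw s A - pw s B‖ ≤ cB κ R M * ‖A - B‖ * (‖A‖ ^ (κ - 1) + ‖B‖ ^ (κ - 1)) := by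
  have hM0 : 0 ≤ M := (norm_nonneg _).trans hM
  have hcA := cA_nonneg κ R M
  have hcB : 2 * cA κ R M ≤ cB κ R M := by
    unfold cB; have : 0 ≤ cA κ R M * (M * Real.exp M) := by positivity
    linarith
  by_cases hA0 : A = 0
  · subst hA0
    have : B = 0 := by
      have : ‖B‖ ≤ 0 := by simpa using hAB
      simpa using this
    subst this
    simp
  have hApos : 0 < ‖A‖ := norm_pos_iff.2 hA0
  have key : ∀ r : ℝ, 0 < r → r * r ^ (κ - 1) = r ^ κ := by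
    intro r hr
    rw [Real.rpow_sub_one hr.ne']; field_simp
  have hpA := key _ hApos
  have hA1 : 0 ≤ ‖A‖ ^ (κ - 1) := Real.rpow_nonneg (norm_nonneg _) _
  have hB1 : 0 ≤ ‖B‖ ^ (κ - 1) := Real.rpow_nonneg (norm_nonneg _) _
  by_cases h2 : 2 * ‖B‖ ≤ ‖A‖
  · -- far case
    have hd : ‖A‖ ≤ 2 * ‖A - B‖ := by
      have := norm_sub_norm_le A B
      linarith
    have hBb : ‖B‖ ^ κ ≤ ‖A‖ * ‖B‖ ^ (κ - 1) ∨ B = 0 := by
      by_cases hB0 : B = 0
      · right; exact hB0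
      · left
        rw [← key _ (norm_pos_iff.2 hB0)]
        exact mul_le_mul_of_nonneg_right hAB hB1
    have e1 : ‖pw s A‖ ≤ cA κ R M * (‖A‖ * ‖A‖ ^ (κ - 1)) := by
      rw [hpA]; exact pw_le hs hM hA
    have e2 : ‖pw s B‖ ≤ cA κ R M * (‖A‖ * ‖B‖ ^ (κ - 1)) := by
      rcases hBb with h | h
      · exact (pw_le hs hM hB).trans (mul_le_mul_of_nonneg_left h hcA)
      · subst h
        rw [pw_zero, norm_zero]
        positivity
    calc ‖pw s A - pw s B‖ ≤ ‖pw s A‖ + ‖pw s B‖ := norm_sub_le _ _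
      _ ≤ cA κ R M * ‖A‖ * (‖A‖ ^ (κ - 1) + ‖B‖ ^ (κ - 1)) := by linarith
      _ ≤ cA κ R M * (2 * ‖A - B‖) * (‖A‖ ^ (κ - 1) + ‖B‖ ^ (κ - 1)) := by gcongr
      _ = (2 * cA κ R M) * ‖A - B‖ * (‖A‖ ^ (κ - 1) + ‖B‖ ^ (κ - 1)) := by ring
      _ ≤ cB κ R M * ‖A - B‖ * (‖A‖ ^ (κ - 1) + ‖B‖ ^ (κ - 1)) := by gcongr
  · -- near case
    push Not at h2
    have hB0 : B ≠ 0 := by
      rintro rfl
      rw [norm_zero, mul_zero] at h2
      exact absurd h2 (not_lt.2 hApos.le)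
    have hBpos : 0 < ‖B‖ := norm_pos_iff.2 hB0
    set δ : ℝ := Real.log ‖A‖ - Real.log ‖B‖ with hδ
    have hδ0 : 0 ≤ δ := sub_nonneg.2 (Real.log_le_log hBpos hAB)
    have hδeq : δ = Real.log (‖A‖ / ‖B‖) := by rw [Real.log_div hApos.ne' hBpos.ne']
    have hδle : δ ≤ ‖A - B‖ / ‖B‖ := by
      rw [hδeq]
      have h3 : Real.log (‖A‖ / ‖B‖) ≤ ‖A‖ / ‖B‖ - 1 :=
        Real.log_le_sub_one_of_pos (div_pos hApos hBpos)
      have h4 : ‖A‖ / ‖B‖ - 1 = (‖A‖ - ‖B‖) / ‖B‖ := by field_simp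
      rw [h4] at h3
      exact h3.trans (div_le_div_of_nonneg_right (norm_sub_norm_le A B) hBpos.le)
    have hδ1 : δ ≤ 1 := by
      rw [hδeq]
      have h3 : Real.log (‖A‖ / ‖B‖) ≤ ‖A‖ / ‖B‖ - 1 :=
        Real.log_le_sub_one_of_pos (div_pos hApos hBpos)
      have h4 : ‖A‖ / ‖B‖ ≤ 2 := by rw [div_le_iff₀ hBpos]; linarith
      linarith
    have e1 : pw s A - pw s B = pw s B * (Complex.exp (s * (δ : ℂ)) - 1) := by
      rw [pw, pw, if_neg hA0, if_neg hB0, mul_sub, mul_one, ← Complex.exp_add, hδ]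
      congr 2
      push_cast
      ring
    have e2 : ‖Complex.exp (s * (δ : ℂ)) - 1‖ ≤ (M * δ) * Real.exp M := by
      have h5 := Complex.norm_exp_sub_sum_le_norm_mul_exp (s * (δ : ℂ)) 1
      have h6 : ‖s * (δ : ℂ)‖ ≤ M * δ := by
        rw [norm_mul, Complex.norm_real, Real.norm_of_nonneg hδ0]
        exact mul_le_mul_of_nonneg_right hM hδ0
      have h7 : ‖s * (δ : ℂ)‖ ≤ M := h6.trans (by nlinarith)
      simp only [Finset.range_one, Finset.sum_singleton, pow_zero, Nat.factorial_zero,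
        Nat.cast_one, div_one, pow_one] at h5
      calc _ ≤ ‖s * (δ : ℂ)‖ * Real.exp ‖s * (δ : ℂ)‖ := h5
        _ ≤ (M * δ) * Real.exp M := by gcongr
    calc ‖pw s A - pw s B‖ = ‖pw s B‖ * ‖Complex.exp (s * (δ : ℂ)) - 1‖ := by
          rw [e1, norm_mul]
      _ ≤ (cA κ R M * ‖B‖ ^ κ) * ((M * δ) * Real.exp M) := by
          gcongr
          exact pw_le hs hM hB
      _ ≤ (cA κ R M * ‖B‖ ^ κ) * ((M * (‖A - B‖ / ‖B‖)) * Real.exp M) := by
          have := Real.rpow_nonneg hBpos.le κ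
          gcongr
      _ = (cA κ R M * (M * Real.exp M)) * ‖A - B‖ * ‖B‖ ^ (κ - 1) := by
          rw [Real.rpow_sub_one hBpos.ne']; field_simp
      _ ≤ cB κ R M * ‖A - B‖ * (‖A‖ ^ (κ - 1) + ‖B‖ ^ (κ - 1)) := by
          have h8 : cA κ R M * (M * Real.exp M) ≤ cB κ R M := by
            unfold cB; linarith
          have h9 : 0 ≤ cA κ R M * (M * Real.exp M) := by positivity
          exact mul_le_mul (mul_le_mul_of_nonneg_right h8 (norm_nonneg _)) (by linarith) hB1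
            (mul_nonneg (h9.trans h8) (norm_nonneg _))

/-- the difference bound, valid for all `A`, `B` in the ball of radius `R`. -/
theorem pw_diff {κ R M : ℝ} {s : ℂ} (hs : κ ≤ s.re) (hM : ‖s‖ ≤ M) {A B : ℂ}
    (hA : ‖A‖ ≤ R) (hB : ‖B‖ ≤ R) :
    ‖pw s A - pw s B‖ ≤ cB κ R M * ‖A - B‖ * (‖A‖ ^ (κ - 1) + ‖B‖ ^ (κ - 1)) := by
  rcases le_total ‖B‖ ‖A‖ with h | h
  · exact pw_diff_aux hs hM hA hB h
  · have := pw_diff_aux hs hM hB hA h
    rw [norm_sub_rev, norm_sub_rev A B, add_comm (‖A‖ ^ (κ - 1))]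
    exact this

end Pool.Agent.helper67.AZ
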