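import Pool.Agent.helper67.AZ.P1

/-! MP_cf8c5a_ag, P4: pointwise domination of `Ef`. -/

open MeasureTheory

namespace Pool.Agent.helper67.AZ

theorem norm_triple_le (x y z : ℂ) : ‖(x, y, z)‖ ≤ ‖x‖ + ‖y‖ + ‖z‖ := by
  rw [Prod.norm_def, Prod.norm_def]
  have := norm_nonneg x
  have := norm_nonneg y
  have := norm_nonneg z
  refine max_le (by simp; linarith) (max_le (by simp; linarith) (by simp; linarith))

section

variable {φ : ℂ × ℂ × ℂ → ℂ} {L : NNReal}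

theorem phi_lip (hL : LipschitzWith L φ) (x y z x' y' z' : ℂ) :
    ‖φ (x, y, z) - φ (x', y', z')‖ ≤ L * (‖x - x'‖ + ‖y - y'‖ + ‖z - z'‖) := by
  have h := hL.dist_le_mul (x, y, z) (x', y', z')
  rw [dist_eq_norm, dist_eq_norm] at h
  refine h.trans (mul_le_mul_of_nonneg_left ?_ L.2)
  have : (x, y, z) - (x', y', z') = (x - x', y - y', z - z') := rfl
  rw [this]
  exact norm_triple_le _ _ _

theorem D0_le (hL : LipschitzWith L φ) (x y z : ℂ) :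
    ‖D0 φ x y z‖ ≤ L * (‖x‖ + ‖y‖ + ‖z‖) := by
  have h := phi_lip hL (2 * x) (2 * y) (2 * z) x y z
  have h1 : 2 * x - x = x := by ring
  have h2 : 2 * y - y = y := by ring
  have h3 : 2 * z - z = z := by ring
  rw [h1, h2, h3] at h
  exact h

theorem D0_diff (hL : LipschitzWith L φ) (x y z x' z' : ℂ) :
    ‖D0 φ x y z - D0 φ x' y z'‖ ≤ 3 * L * (‖x - x'‖ + ‖z - z'‖) := by
  have h := phi_lip hL (2 * x) (2 * y) (2 * z) (2 * x') (2 * y) (2 * z')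
  have h' := phi_lip hL x y z x' y z'
  have e1 : ‖2 * x - 2 * x'‖ = 2 * ‖x - x'‖ := by rw [← mul_sub, norm_mul]; simp
  have e2 : ‖2 * z - 2 * z'‖ = 2 * ‖z - z'‖ := by rw [← mul_sub, norm_mul]; simp
  rw [e1, e2, sub_self, norm_zero, add_zero] at h
  rw [sub_self, norm_zero, add_zero] at h'
  have e3 : D0 φ x y z - D0 φ x' y z' =
      (φ (2 * x, 2 * y, 2 * z) - φ (2 * x', 2 * y, 2 * z')) - (φ (x, y, z) - φ (x', y, z')) := by
    unfold D0; ring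
  rw [e3]
  refine (norm_sub_le _ _).trans ?_
  linarith

theorem D0_zero {R : ℝ} (hR : ∀ p, φ p ≠ 0 → ‖p‖ ≤ R) {x y z : ℂ}
    (h : R < ‖x‖ ∨ R < ‖y‖ ∨ R < ‖z‖) : D0 φ x y z = 0 := by
  have hm : R < ‖(x, y, z)‖ := by
    rw [Prod.norm_def, Prod.norm_def]
    rcases h with h | h | h
    · exact lt_of_lt_of_le h (le_max_left _ _)
    · exact lt_of_lt_of_le h ((le_max_left _ _).trans (le_max_right _ _))
    · exact lt_of_lt_of_le h ((le_max_right _ _).trans (le_max_right _ _))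
  have h1 : φ (x, y, z) = 0 := by
    by_contra h0
    exact absurd (hR _ h0) (not_le.2 hm)
  have h2 : φ (2 * x, 2 * y, 2 * z) = 0 := by
    by_contra h0
    have h3 := hR _ h0
    have h4 : (2 * x, 2 * y, 2 * z) = (2 : ℂ) • (x, y, z) := rfl
    rw [h4, norm_smul] at h3
    have h5 : ‖(2 : ℂ)‖ = 2 := by simp
    rw [h5] at h3
    have := norm_nonneg (x, y, z)
    linarith
  rw [D0, h1, h2, sub_zero]

theorem mf_le {t : ℝ} (ht : 0 ≤ t) (ht1 : t ≤ 1) (x y z : ℂ) :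
    ‖mf t x y z‖ ≤ ‖x‖ + ‖y‖ + ‖z‖ := by
  have h1 : ‖(1 - (t : ℂ)) * z‖ ≤ ‖z‖ := by
    rw [norm_mul]
    have : ‖(1 - (t : ℂ))‖ ≤ 1 := by
      have : (1 - (t : ℂ)) = ((1 - t : ℝ) : ℂ) := by push_cast; ring
      rw [this, Complex.norm_real, Real.norm_of_nonneg (by linarith)]
      linarith
    exact mul_le_of_le_one_left (norm_nonneg _) this
  have h2 : ‖(t : ℂ) * x‖ ≤ ‖x‖ := by
    rw [norm_mul]
    have : ‖(t : ℂ)‖ ≤ 1 := by
      rw [Complex.norm_real, Real.norm_of_nonneg ht]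
      exact ht1
    exact mul_le_of_le_one_left (norm_nonneg _) this
  unfold mf
  calc ‖y - (1 - (t : ℂ)) * z - (t : ℂ) * x‖ ≤ ‖y - (1 - (t : ℂ)) * z‖ + ‖(t : ℂ) * x‖ :=
        norm_sub_le _ _
    _ ≤ ‖y‖ + ‖(1 - (t : ℂ)) * z‖ + ‖(t : ℂ) * x‖ := by
        gcongr
        exact norm_sub_le _ _
    _ ≤ _ := by linarith

theorem mf_diff {t : ℝ} (ht : 0 ≤ t) (ht1 : t ≤ 1) (x y z x' z' : ℂ) :
    ‖mf t x y z - mf t x' y z'‖ ≤ ‖x - x'‖ + ‖z - z'‖ := by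
  have h := mf_le ht ht1 (x - x') 0 (z - z')
  rw [norm_zero, add_zero] at h
  have e : mf t x y z - mf t x' y z' = mf t (x - x') 0 (z - z') := by
    unfold mf; ring
  rw [e]
  exact h

theorem rpow_aux {κ r : ℝ} (hκ : κ ≠ 0) (hr : 0 ≤ r) : r ^ κ = r * r ^ (κ - 1) := by
  rcases hr.eq_or_lt with h | h
  · rw [← h, Real.zero_rpow hκ, zero_mul]
  · rw [Real.rpow_sub_one h.ne']; field_simp

theorem T_aux {R T : ℝ} (hT : 0 ≤ T) (hTR : T ≤ 3 * R) :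
    T ≤ (3 * R) ^ ((9 / 10) : ℝ) * T ^ ((1 / 10) : ℝ) := by
  have h1 : T = T ^ ((9 / 10) : ℝ) * T ^ ((1 / 10) : ℝ) := by
    rcases hT.eq_or_lt with h | h
    · rw [← h, Real.zero_rpow (by norm_num), zero_mul]
    · rw [← Real.rpow_add h]; norm_num
  conv_lhs => rw [h1]
  exact mul_le_mul_of_nonneg_right (Real.rpow_le_rpow hT hTR (by norm_num))
    (Real.rpow_nonneg hT _)

/-- constant in `N_diff` -/
noncomputable def cN (L : NNReal) (R M : ℝ) : ℝ :=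
  cA (-(19 / 25)) R (2 * M) * (4 * L * (3 * R) ^ ((9 / 10) : ℝ) * cB (-(19 / 25)) (7 * R) (2 * M) +
    12 * L * (3 * R) ^ ((9 / 10) : ℝ) * cA (-(19 / 25)) (7 * R) (2 * M))

theorem N_diff {t : ℝ} (ht : 0 ≤ t) (ht1 : t ≤ 1) (hL : LipschitzWith L φ) {R M : ℝ}
    {s : ℂ} (hs : -(19 / 50) ≤ s.re) (hM : ‖s‖ ≤ M) {T : ℝ} {x y z x' z' : ℂ}
    (hT : 0 ≤ T) (hTR : T ≤ 3 * R) (h1 : ‖x‖ + ‖y‖ + ‖z‖ ≤ 4 * T)
    (h2 : ‖x'‖ + ‖y‖ + ‖z'‖ ≤ 4 * T) (hy : ‖y‖ ≤ R)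
    (hm : ‖mf t x y z‖ ≤ 7 * R) (hm' : ‖mf t x' y z'‖ ≤ 7 * R) :
    ‖Nf t φ s x y z - Nf t φ s x' y z'‖ ≤ cN L R M * ‖y‖ ^ (-(19 / 25) : ℝ) *
      (‖x - x'‖ + ‖z - z'‖) *
      (‖mf t x y z‖ ^ (-(44 / 25) : ℝ) + ‖mf t x' y z'‖ ^ (-(44 / 25) : ℝ)) *
      T ^ ((1 / 10) : ℝ) := by
  have hM0 : 0 ≤ M := (norm_nonneg _).trans hM
  have hR0 : 0 ≤ R := (norm_nonneg _).trans hy
  set m := mf t x y z with hmdef
  set m' := mf t x' y z' with hm'def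
  have hs2 : -(19 / 25) ≤ (2 * s).re := by
    have : (2 * s).re = 2 * s.re := by simp
    rw [this]; linarith
  have hM2 : ‖2 * s‖ ≤ 2 * M := by
    rw [norm_mul]; simp; linarith
  set D := ‖x - x'‖ + ‖z - z'‖ with hD
  have hD0 : 0 ≤ D := by positivity
  set q := (3 * R) ^ ((9 / 10) : ℝ) with hq
  have hq0 : 0 ≤ q := Real.rpow_nonneg (by linarith) _
  set T1 := T ^ ((1 / 10) : ℝ) with hT1
  have hT10 : 0 ≤ T1 := Real.rpow_nonneg hT _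
  have hTq : T ≤ q * T1 := T_aux hT hTR
  set a := ‖m‖ ^ (-(44 / 25) : ℝ) with ha
  set a' := ‖m'‖ ^ (-(44 / 25) : ℝ) with ha'
  have ha0 : 0 ≤ a := Real.rpow_nonneg (norm_nonneg _) _
  have ha'0 : 0 ≤ a' := Real.rpow_nonneg (norm_nonneg _) _
  have e44 : (-(19 / 25) : ℝ) - 1 = -(44 / 25) := by norm_num
  have B1 : ‖pw (2 * s) y‖ ≤ cA (-(19 / 25)) R (2 * M) * ‖y‖ ^ (-(19 / 25) : ℝ) :=
    pw_le hs2 hM2 hy
  have B2 : ‖pw (2 * s) m - pw (2 * s) m'‖ ≤ cB (-(19 / 25)) (7 * R) (2 * M) * D * (a + a') := by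
    have h := pw_diff hs2 hM2 hm hm'
    rw [e44] at h
    refine h.trans ?_
    have hc : 0 ≤ cB (-(19 / 25)) (7 * R) (2 * M) := cB_nonneg (by linarith)
    have hd : ‖m - m'‖ ≤ D := mf_diff ht ht1 x y z x' z'
    gcongr
  have B3 : ‖D0 φ x y z‖ ≤ 4 * L * (q * T1) := by
    refine (D0_le hL x y z).trans ?_
    have : (L : ℝ) * (‖x‖ + ‖y‖ + ‖z‖) ≤ L * (4 * T) := by gcongr
    refine this.trans ?_
    have h4 : (L : ℝ) * (4 * T) = 4 * L * T := by ring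
    rw [h4]
    gcongr
  have B4 : ‖pw (2 * s) m'‖ ≤ cA (-(19 / 25)) (7 * R) (2 * M) * (4 * (q * T1) * a') := by
    refine (pw_le hs2 hM2 hm').trans ?_
    have hc := cA_nonneg (-(19 / 25)) (7 * R) (2 * M)
    rw [rpow_aux (by norm_num) (norm_nonneg m'), e44]
    have h5 : ‖m'‖ ≤ 4 * (q * T1) := by
      have := mf_le ht ht1 x' y z'
      rw [← hm'def] at this
      linarith
    gcongr
  have B5 : ‖D0 φ x y z - D0 φ x' y z'‖ ≤ 3 * L * D := D0_diff hL x y z x' z'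
  have e : Nf t φ s x y z - Nf t φ s x' y z' = pw (2 * s) y *
      ((pw (2 * s) m - pw (2 * s) m') * D0 φ x y z +
        pw (2 * s) m' * (D0 φ x y z - D0 φ x' y z')) := by
    unfold Nf; ring
  rw [e, norm_mul]
  have hcA := cA_nonneg (-(19 / 25)) R (2 * M)
  have hcA' := cA_nonneg (-(19 / 25)) (7 * R) (2 * M)
  have hcB : 0 ≤ cB (-(19 / 25)) (7 * R) (2 * M) := cB_nonneg (by linarith)
  have hy1 : 0 ≤ ‖y‖ ^ (-(19 / 25) : ℝ) := Real.rpow_nonneg (norm_nonneg _) _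
  have B6 : ‖(pw (2 * s) m - pw (2 * s) m') * D0 φ x y z +
        pw (2 * s) m' * (D0 φ x y z - D0 φ x' y z')‖ ≤
      (4 * L * q * cB (-(19 / 25)) (7 * R) (2 * M) +
        12 * L * q * cA (-(19 / 25)) (7 * R) (2 * M)) * D * (a + a') * T1 := by
    calc _ ≤ ‖pw (2 * s) m - pw (2 * s) m'‖ * ‖D0 φ x y z‖ +
          ‖pw (2 * s) m'‖ * ‖D0 φ x y z - D0 φ x' y z'‖ := by
          refine (norm_add_le _ _).trans ?_
          rw [norm_mul, norm_mul]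
      _ ≤ (cB (-(19 / 25)) (7 * R) (2 * M) * D * (a + a')) * (4 * L * (q * T1)) +
          (cA (-(19 / 25)) (7 * R) (2 * M) * (4 * (q * T1) * a')) * (3 * L * D) := by
          gcongr
      _ ≤ (cB (-(19 / 25)) (7 * R) (2 * M) * D * (a + a')) * (4 * L * (q * T1)) +
          (cA (-(19 / 25)) (7 * R) (2 * M) * (4 * (q * T1) * (a + a'))) * (3 * L * D) := by
          gcongr
          linarith
      _ = _ := by ring
  calc _ ≤ (cA (-(19 / 25)) R (2 * M) * ‖y‖ ^ (-(19 / 25) : ℝ)) *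
      ((4 * L * q * cB (-(19 / 25)) (7 * R) (2 * M) +
        12 * L * q * cA (-(19 / 25)) (7 * R) (2 * M)) * D * (a + a') * T1) := by gcongr
    _ = _ := by unfold cN; ring

theorem Ef_zero {t : ℝ} {R : ℝ} (hR : ∀ p, φ p ≠ 0 → ‖p‖ ≤ R) (s : ℂ) {x y z : ℂ}
    (h : R < ‖x‖ ∨ R < ‖y‖ ∨ R < ‖z‖) : Ef t φ s (x, y, z) = 0 := by
  have hb : ∀ (w : ℂ) (c : ℂ), 1 ≤ ‖c‖ → R < ‖w‖ → R < ‖c * w‖ := by
    intro w c hc hw
    rw [norm_mul]
    have := norm_nonneg w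
    nlinarith
  have n2 : (1 : ℝ) ≤ ‖(2 : ℂ)‖ := by simp
  have hN : ∀ a b : ℂ, 1 ≤ ‖a‖ → 1 ≤ ‖b‖ → Nf t φ s (a * x) y (b * z) = 0 := by
    intro a b ha hb'
    have : D0 φ (a * x) y (b * z) = 0 := by
      apply D0_zero hR
      rcases h with h | h | h
      · exact Or.inl (hb x a ha h)
      · exact Or.inr (Or.inl h)
      · exact Or.inr (Or.inr (hb z b hb' h))
    rw [Nf, this, mul_zero]
  have h1 := hN 4 2 (by norm_num) n2
  have h2 := hN 2 1 n2 (by norm_num)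
  have h3 := hN 2 2 n2 n2
  have h4 := hN 1 1 (by norm_num) (by norm_num)
  simp only [one_mul] at h2 h4
  simp only [Ef, Xi]
  rw [show (2 : ℂ) * (2 * x) = 4 * x by ring, h1, h2, h3, h4]
  simp

/-- constant in `dom_bound`. -/
noncomputable def cD (L : NNReal) (R M : ℝ) : ℝ :=
  cA (-(57 / 25)) R (6 * M) *
    (cB (-(19 / 25)) (3 * R) (2 * M) * cA (-(38 / 25)) R (4 * M) * (2 * cN L R M) +
      cA (-(19 / 25)) (3 * R) (2 * M) * cA (-(38 / 25)) R (4 * M) * (3 * cN L R M))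

theorem Ef_le {t : ℝ} (ht : 0 ≤ t) (ht1 : t ≤ 1) (hL : LipschitzWith L φ) {R M : ℝ}
    {s : ℂ} (hs : -(19 / 50) ≤ s.re) (hM : ‖s‖ ≤ M) {x y z : ℂ}
    (hx : ‖x‖ ≤ R) (hy : ‖y‖ ≤ R) (hz : ‖z‖ ≤ R) :
    ‖Ef t φ s (x, y, z)‖ ≤ cD L R M * Dom t R (x, y, z) := by
  have hM0 : 0 ≤ M := (norm_nonneg _).trans hM
  have hR0 : 0 ≤ R := (norm_nonneg _).trans hy
  have nx := norm_nonneg x
  have ny := norm_nonneg y
  have nz := norm_nonneg z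
  have n2 : ‖(2 : ℂ)‖ = 2 := by simp
  have n4 : ‖(4 : ℂ)‖ = 4 := by simp
  have hx2 : ‖2 * x‖ = 2 * ‖x‖ := by rw [norm_mul, n2]
  have hz2 : ‖2 * z‖ = 2 * ‖z‖ := by rw [norm_mul, n2]
  have hx4 : ‖4 * x‖ = 4 * ‖x‖ := by rw [norm_mul, n4]
  set T := ‖x‖ + ‖y‖ + ‖z‖ with hT
  have hT0 : 0 ≤ T := by positivity
  have hTR : T ≤ 3 * R := by rw [hT]; linarith
  set m1 := mf t (4 * x) y (2 * z) with hm1
  set m2 := mf t (2 * x) y z with hm2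
  set m3 := mf t (2 * x) y (2 * z) with hm3
  set m4 := mf t x y z with hm4
  have k1 : ‖m1‖ ≤ 7 * R := (mf_le ht ht1 _ _ _).trans (by rw [hx4, hz2]; linarith)
  have k2 : ‖m2‖ ≤ 7 * R := (mf_le ht ht1 _ _ _).trans (by rw [hx2]; linarith)
  have k3 : ‖m3‖ ≤ 7 * R := (mf_le ht ht1 _ _ _).trans (by rw [hx2, hz2]; linarith)
  have k4 : ‖m4‖ ≤ 7 * R := (mf_le ht ht1 _ _ _).trans (by linarith)
  set S := ‖m1‖ ^ (-(44 / 25) : ℝ) + ‖m2‖ ^ (-(44 / 25) : ℝ) + ‖m3‖ ^ (-(44 / 25) : ℝ)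
    + ‖m4‖ ^ (-(44 / 25) : ℝ) with hS
  have s1 : 0 ≤ ‖m1‖ ^ (-(44 / 25) : ℝ) := Real.rpow_nonneg (norm_nonneg _) _
  have s2 : 0 ≤ ‖m2‖ ^ (-(44 / 25) : ℝ) := Real.rpow_nonneg (norm_nonneg _) _
  have s3 : 0 ≤ ‖m3‖ ^ (-(44 / 25) : ℝ) := Real.rpow_nonneg (norm_nonneg _) _
  have s4 : 0 ≤ ‖m4‖ ^ (-(44 / 25) : ℝ) := Real.rpow_nonneg (norm_nonneg _) _
  have hS0 : 0 ≤ S := by rw [hS]; positivity
  set T1 := T ^ ((1 / 10) : ℝ) with hT1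
  have hT10 : 0 ≤ T1 := Real.rpow_nonneg hT0 _
  set Y := ‖y‖ ^ (-(19 / 25) : ℝ) with hY
  have hY0 : 0 ≤ Y := Real.rpow_nonneg ny _
  set Zz := ‖z‖ ^ (-(38 / 25) : ℝ) with hZz
  have hZz0 : 0 ≤ Zz := Real.rpow_nonneg nz _
  set b1 := ‖2 * x - z‖ ^ (-(44 / 25) : ℝ) with hb1
  have hb10 : 0 ≤ b1 := Real.rpow_nonneg (norm_nonneg _) _
  set b2 := ‖x - z‖ ^ (-(44 / 25) : ℝ) with hb2
  have hb20 : 0 ≤ b2 := Real.rpow_nonneg (norm_nonneg _) _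
  have hcN : 0 ≤ cN L R M := by
    unfold cN
    have h1 := cA_nonneg (-(19 / 25)) R (2 * M)
    have h2 := cA_nonneg (-(19 / 25)) (7 * R) (2 * M)
    have h3 : 0 ≤ cB (-(19 / 25)) (7 * R) (2 * M) := cB_nonneg (by linarith)
    have h4 : 0 ≤ (3 * R) ^ ((9 / 10) : ℝ) := Real.rpow_nonneg (by linarith) _
    positivity
  -- the four differences of N
  have D12 : ‖Nf t φ s (4 * x) y (2 * z) - Nf t φ s (2 * x) y z‖ ≤
      2 * cN L R M * Y * (‖x‖ + ‖z‖) * S * T1 := by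
    have h := N_diff ht ht1 hL hs hM hT0 hTR (x := 4 * x) (y := y) (z := 2 * z) (x' := 2 * x)
      (z' := z) (by rw [hx4, hz2]; linarith) (by rw [hx2]; linarith) hy k1 k2
    refine h.trans ?_
    have e1 : ‖4 * x - 2 * x‖ = 2 * ‖x‖ := by
      rw [show 4 * x - 2 * x = 2 * x by ring, hx2]
    have e2 : ‖2 * z - z‖ = ‖z‖ := by rw [show 2 * z - z = z by ring]
    rw [e1, e2]
    have e3 : ‖m1‖ ^ (-(44 / 25) : ℝ) + ‖m2‖ ^ (-(44 / 25) : ℝ) ≤ S := by rw [hS]; linarith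
    have e4 : 2 * ‖x‖ + ‖z‖ ≤ 2 * (‖x‖ + ‖z‖) := by linarith
    calc cN L R M * Y * (2 * ‖x‖ + ‖z‖) *
          (‖m1‖ ^ (-(44 / 25) : ℝ) + ‖m2‖ ^ (-(44 / 25) : ℝ)) * T1
        ≤ cN L R M * Y * (2 * (‖x‖ + ‖z‖)) * S * T1 := by gcongr
      _ = _ := by ring
  have D13 : ‖Nf t φ s (4 * x) y (2 * z) - Nf t φ s (2 * x) y (2 * z)‖ ≤
      2 * cN L R M * Y * ‖x‖ * S * T1 := by
    have h := N_diff ht ht1 hL hs hM hT0 hTR (x := 4 * x) (y := y) (z := 2 * z) (x' := 2 * x)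
      (z' := 2 * z) (by rw [hx4, hz2]; linarith) (by rw [hx2, hz2]; linarith) hy k1 k3
    refine h.trans ?_
    have e1 : ‖4 * x - 2 * x‖ = 2 * ‖x‖ := by
      rw [show 4 * x - 2 * x = 2 * x by ring, hx2]
    rw [e1, sub_self, norm_zero, add_zero]
    have e3 : ‖m1‖ ^ (-(44 / 25) : ℝ) + ‖m3‖ ^ (-(44 / 25) : ℝ) ≤ S := by rw [hS]; linarith
    calc cN L R M * Y * (2 * ‖x‖) *
          (‖m1‖ ^ (-(44 / 25) : ℝ) + ‖m3‖ ^ (-(44 / 25) : ℝ)) * T1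
        ≤ cN L R M * Y * (2 * ‖x‖) * S * T1 := by gcongr
      _ = _ := by ring
  have D24 : ‖Nf t φ s (2 * x) y z - Nf t φ s x y z‖ ≤
      cN L R M * Y * ‖x‖ * S * T1 := by
    have h := N_diff ht ht1 hL hs hM hT0 hTR (x := 2 * x) (y := y) (z := z) (x' := x)
      (z' := z) (by rw [hx2]; linarith) (by linarith) hy k2 k4
    refine h.trans ?_
    have e1 : ‖2 * x - x‖ = ‖x‖ := by rw [show 2 * x - x = x by ring]
    rw [e1, sub_self, norm_zero, add_zero]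
    have e3 : ‖m2‖ ^ (-(44 / 25) : ℝ) + ‖m4‖ ^ (-(44 / 25) : ℝ) ≤ S := by rw [hS]; linarith
    gcongr
  -- exponents
  have hs2 : -(19 / 25) ≤ (2 * s).re := by
    have : (2 * s).re = 2 * s.re := by simp
    rw [this]; linarith
  have hs4 : -(38 / 25) ≤ (4 * s).re := by
    have : (4 * s).re = 4 * s.re := by simp
    rw [this]; linarith
  have hs6 : -(57 / 25) ≤ (6 * s).re := by
    have : (6 * s).re = 6 * s.re := by simp
    rw [this]; linarith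
  have hM2 : ‖2 * s‖ ≤ 2 * M := by rw [norm_mul, n2]; linarith
  have hM4 : ‖4 * s‖ ≤ 4 * M := by rw [norm_mul, n4]; linarith
  have hM6 : ‖6 * s‖ ≤ 6 * M := by rw [norm_mul]; simp; linarith
  have e44 : (-(19 / 25) : ℝ) - 1 = -(44 / 25) := by norm_num
  have e57 : (-(32 / 25) : ℝ) - 1 = -(57 / 25) := by norm_num
  have P6 : ‖pw (6 * s) x‖ ≤ cA (-(57 / 25)) R (6 * M) * ‖x‖ ^ (-(57 / 25) : ℝ) :=
    pw_le hs6 hM6 hx
  have P4 : ‖pw (4 * s) z‖ ≤ cA (-(38 / 25)) R (4 * M) * Zz := pw_le hs4 hM4 hz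
  have hxz2 : ‖2 * x - z‖ ≤ 3 * R := (norm_sub_le _ _).trans (by rw [hx2]; linarith)
  have hxz1 : ‖x - z‖ ≤ 3 * R := (norm_sub_le _ _).trans (by linarith)
  have K1 : ‖Kf s (2 * x) z - Kf s x z‖ ≤
      cB (-(19 / 25)) (3 * R) (2 * M) * ‖x‖ * (b1 + b2) * (cA (-(38 / 25)) R (4 * M) * Zz) := by
    have e : Kf s (2 * x) z - Kf s x z =
        (pw (2 * s) (2 * x - z) - pw (2 * s) (x - z)) * pw (4 * s) z := by
      unfold Kf; ring
    rw [e, norm_mul]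
    have h := pw_diff hs2 hM2 hxz2 hxz1
    rw [e44, show 2 * x - z - (x - z) = x by ring] at h
    have hc : 0 ≤ cB (-(19 / 25)) (3 * R) (2 * M) := cB_nonneg (by linarith)
    exact mul_le_mul h P4 (norm_nonneg _) (by positivity)
  have K2 : ‖Kf s x z‖ ≤ (cA (-(19 / 25)) (3 * R) (2 * M) * ((‖x‖ + ‖z‖) * b2)) *
      (cA (-(38 / 25)) R (4 * M) * Zz) := by
    unfold Kf
    rw [norm_mul]
    have h := pw_le hs2 hM2 hxz1
    rw [rpow_aux (by norm_num) (norm_nonneg (x - z)), e44] at h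
    have hc := cA_nonneg (-(19 / 25)) (3 * R) (2 * M)
    have h' : ‖pw (2 * s) (x - z)‖ ≤
        cA (-(19 / 25)) (3 * R) (2 * M) * ((‖x‖ + ‖z‖) * b2) := by
      refine h.trans ?_
      have := norm_sub_le x z
      gcongr
    have : 0 ≤ cA (-(19 / 25)) (3 * R) (2 * M) * ((‖x‖ + ‖z‖) * b2) := by positivity
    exact mul_le_mul h' P4 (norm_nonneg _) this
  have hcA4 := cA_nonneg (-(38 / 25)) R (4 * M)
  have hcA3 := cA_nonneg (-(19 / 25)) (3 * R) (2 * M)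
  have hcA6 := cA_nonneg (-(57 / 25)) R (6 * M)
  have hcB3 : 0 ≤ cB (-(19 / 25)) (3 * R) (2 * M) := cB_nonneg (by linarith)
  have main : ‖Xi t φ s (2 * x) y z - Xi t φ s x y z‖ ≤
      (cB (-(19 / 25)) (3 * R) (2 * M) * cA (-(38 / 25)) R (4 * M) * (2 * cN L R M) +
      cA (-(19 / 25)) (3 * R) (2 * M) * cA (-(38 / 25)) R (4 * M) * (3 * cN L R M)) *
      (‖x‖ * (b1 + b2) * Zz * Y * (‖x‖ + ‖z‖) * S * T1) := by
    have e : Xi t φ s (2 * x) y z - Xi t φ s x y z =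
        (Kf s (2 * x) z - Kf s x z) * (Nf t φ s (4 * x) y (2 * z) - Nf t φ s (2 * x) y z) +
        Kf s x z * ((Nf t φ s (4 * x) y (2 * z) - Nf t φ s (2 * x) y (2 * z)) -
          (Nf t φ s (2 * x) y z - Nf t φ s x y z)) := by
      unfold Xi
      rw [show (2 : ℂ) * (2 * x) = 4 * x by ring]
      ring
    rw [e]
    have h1 : ‖(Kf s (2 * x) z - Kf s x z) *
        (Nf t φ s (4 * x) y (2 * z) - Nf t φ s (2 * x) y z)‖ ≤
        (cB (-(19 / 25)) (3 * R) (2 * M) * ‖x‖ * (b1 + b2) * (cA (-(38 / 25)) R (4 * M) * Zz)) *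
        (2 * cN L R M * Y * (‖x‖ + ‖z‖) * S * T1) := by
      rw [norm_mul]
      exact mul_le_mul K1 D12 (norm_nonneg _) (by positivity)
    have h2 : ‖(Nf t φ s (4 * x) y (2 * z) - Nf t φ s (2 * x) y (2 * z)) -
          (Nf t φ s (2 * x) y z - Nf t φ s x y z)‖ ≤ 3 * cN L R M * Y * ‖x‖ * S * T1 := by
      refine (norm_sub_le _ _).trans ?_
      linarith
    have h3 : ‖Kf s x z * ((Nf t φ s (4 * x) y (2 * z) - Nf t φ s (2 * x) y (2 * z)) -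
          (Nf t φ s (2 * x) y z - Nf t φ s x y z))‖ ≤
        ((cA (-(19 / 25)) (3 * R) (2 * M) * ((‖x‖ + ‖z‖) * b2)) *
          (cA (-(38 / 25)) R (4 * M) * Zz)) * (3 * cN L R M * Y * ‖x‖ * S * T1) := by
      rw [norm_mul]
      exact mul_le_mul K2 h2 (norm_nonneg _) (by positivity)
    refine (norm_add_le _ _).trans ?_
    refine (add_le_add h1 h3).trans ?_
    have h4 : ((cA (-(19 / 25)) (3 * R) (2 * M) * ((‖x‖ + ‖z‖) * b2)) *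
          (cA (-(38 / 25)) R (4 * M) * Zz)) * (3 * cN L R M * Y * ‖x‖ * S * T1) ≤
        ((cA (-(19 / 25)) (3 * R) (2 * M) * ((‖x‖ + ‖z‖) * (b1 + b2))) *
          (cA (-(38 / 25)) R (4 * M) * Zz)) * (3 * cN L R M * Y * ‖x‖ * S * T1) := by
      gcongr
      linarith
    refine (add_le_add le_rfl h4).trans (le_of_eq ?_)
    ring
  have hEf : Ef t φ s (x, y, z) = pw (6 * s) x * (Xi t φ s (2 * x) y z - Xi t φ s x y z) := rfl
  rw [hEf, norm_mul]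
  have hDom : Dom t R (x, y, z) = ‖x‖ ^ (-(32 / 25) : ℝ) * Zz * (b1 + b2) * (‖x‖ + ‖z‖) * Y *
      T1 * S := by
    unfold Dom
    rw [if_pos ⟨hx, hy, hz⟩]
  rw [hDom, rpow_aux (κ := -(32 / 25)) (by norm_num) nx, e57]
  refine (mul_le_mul P6 main (norm_nonneg _) (by
    have := Real.rpow_nonneg nx (-(57 / 25) : ℝ)
    positivity)).trans (le_of_eq ?_)
  unfold cD
  ring

theorem Dom_nonneg (t R : ℝ) (p : ℂ × ℂ × ℂ) : 0 ≤ Dom t R p := by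
  unfold Dom
  split_ifs
  · positivity
  · exact le_rfl

theorem dom_bound {t : ℝ} (ht : 0 < t) (ht1 : t < 1)
    (hL : LipschitzWith L φ) (hφ : HasCompactSupport φ) (M : ℝ) :
    ∃ C R : ℝ, 0 ≤ C ∧ 0 ≤ R ∧ ∀ s : ℂ, -(19 / 50) ≤ s.re → ‖s‖ ≤ M →
      ∀ p, ‖Ef t φ s p‖ ≤ C * Dom t R p := by
  obtain ⟨R0, hR0⟩ := hφ.isCompact.isBounded.exists_norm_le
  have hR : ∀ p, φ p ≠ 0 → ‖p‖ ≤ max R0 0 := fun p hp =>
    (hR0 p (subset_tsupport _ hp)).trans (le_max_left _ _)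
  refine ⟨|cD L (max R0 0) M|, max R0 0, abs_nonneg _, le_max_right _ _, ?_⟩
  rintro s hs hM ⟨x, y, z⟩
  by_cases h : ‖x‖ ≤ max R0 0 ∧ ‖y‖ ≤ max R0 0 ∧ ‖z‖ ≤ max R0 0
  · obtain ⟨hx, hy, hz⟩ := h
    exact (Ef_le ht.le ht1.le hL hs hM hx hy hz).trans
      (mul_le_mul_of_nonneg_right (le_abs_self _) (Dom_nonneg _ _ _))
  · have h' : max R0 0 < ‖x‖ ∨ max R0 0 < ‖y‖ ∨ max R0 0 < ‖z‖ := by
      by_contra hc
      push Not at hc
      exact h hc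
    rw [Ef_zero hR s h', norm_zero]
    exact mul_nonneg (abs_nonneg _) (Dom_nonneg _ _ _)

end

end Pool.Agent.helper67.AZ
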