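import Pool.Agent.helper67.AZ.P1

/-! MP_cf8c5a_ag: scaling of Lebesgue measure on C, C x C by complex numbers. -/

open MeasureTheory

namespace Pool.Agent.helper67.AZ

theorem map_mul_volume {c : ℂ} (hc : c ≠ 0) :
    Measure.map (fun u : ℂ => c * u) volume =
      ENNReal.ofReal ((‖c‖ ^ 2)⁻¹) • (volume : Measure ℂ) := by
  have hdet : LinearMap.det (Algebra.lmul ℝ ℂ c) = ‖c‖ ^ 2 := by
    rw [← Algebra.norm_apply, Algebra.norm_complex_apply, Complex.normSq_eq_norm_sq]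
  have hpos : 0 < ‖c‖ ^ 2 := by positivity
  have h := Measure.map_linearMap_addHaar_eq_smul_addHaar (μ := (volume : Measure ℂ))
    (f := Algebra.lmul ℝ ℂ c) (by rw [hdet]; exact hpos.ne')
  rw [hdet, abs_of_pos (inv_pos.2 hpos)] at h
  exact h

noncomputable def mulEquiv (c : ℂ) (hc : c ≠ 0) : ℂ ≃ᵐ ℂ :=
  (Homeomorph.mulLeft₀ c hc).toMeasurableEquiv

theorem mulEquiv_apply (c : ℂ) (hc : c ≠ 0) (u : ℂ) : mulEquiv c hc u = c * u := rfl

section

variable {E : Type*} [NormedAddCommGroup E] [NormedSpace ℝ E]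

theorem integral_scale {c : ℂ} (hc : c ≠ 0) (F : ℂ → E) :
    ∫ u, F (c * u) = (‖c‖ ^ 2)⁻¹ • ∫ u, F u := by
  have h1 : ∫ u, F (c * u) = ∫ u, F u ∂(Measure.map (mulEquiv c hc) volume) := by
    rw [MeasureTheory.integral_map_equiv]
    rfl
  have h2 : Measure.map (mulEquiv c hc) volume =
      ENNReal.ofReal ((‖c‖ ^ 2)⁻¹) • (volume : Measure ℂ) := map_mul_volume hc
  rw [h1, h2, integral_smul_measure, ENNReal.toReal_ofReal (by positivity)]

omit [NormedSpace ℝ E] in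
theorem integrable_scale {c : ℂ} (hc : c ≠ 0) (F : ℂ → E) :
    Integrable (fun u => F (c * u)) ↔ Integrable F := by
  have h2 : Measure.map (mulEquiv c hc) volume =
      ENNReal.ofReal ((‖c‖ ^ 2)⁻¹) • (volume : Measure ℂ) := map_mul_volume hc
  have hpos : 0 < ‖c‖ ^ 2 := by positivity
  have h3 : Integrable F (ENNReal.ofReal ((‖c‖ ^ 2)⁻¹) • (volume : Measure ℂ)) ↔
      Integrable F := by
    apply integrable_smul_measure
    · simp [ENNReal.ofReal_eq_zero, not_le.2 hpos]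
    · exact ENNReal.ofReal_ne_top
  rw [← h3, ← h2, integrable_map_equiv]
  rfl

theorem map_mul_volume2 {c : ℂ} (hc : c ≠ 0) :
    Measure.map (Prod.map (fun u : ℂ => c * u) (fun u : ℂ => c * u)) volume =
      ENNReal.ofReal ((‖c‖ ^ 4)⁻¹) • (volume : Measure (ℂ × ℂ)) := by
  have hm : Measurable (fun u : ℂ => c * u) := measurable_const_mul c
  rw [Measure.volume_eq_prod, ← Measure.map_prod_map _ _ hm hm, map_mul_volume hc,
    Measure.prod_smul_left, Measure.prod_smul_right, smul_smul,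
    ← ENNReal.ofReal_mul (by positivity)]
  congr 2
  rw [← mul_inv]
  ring_nf

theorem integral_scale2 {c : ℂ} (hc : c ≠ 0) (F : ℂ × ℂ → E) :
    ∫ w : ℂ × ℂ, F (c * w.1, c * w.2) = (‖c‖ ^ 4)⁻¹ • ∫ w, F w := by
  have h1 : ∫ w : ℂ × ℂ, F (c * w.1, c * w.2) =
      ∫ w, F w ∂(Measure.map ((mulEquiv c hc).prodCongr (mulEquiv c hc)) volume) := by
    rw [MeasureTheory.integral_map_equiv]
    rfl
  have h2 : Measure.map ((mulEquiv c hc).prodCongr (mulEquiv c hc)) volume =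
      ENNReal.ofReal ((‖c‖ ^ 4)⁻¹) • (volume : Measure (ℂ × ℂ)) := map_mul_volume2 hc
  rw [h1, h2, integral_smul_measure, ENNReal.toReal_ofReal (by positivity)]

omit [NormedSpace ℝ E] in
theorem integrable_scale2 {c : ℂ} (hc : c ≠ 0) (F : ℂ × ℂ → E) :
    Integrable (fun w : ℂ × ℂ => F (c * w.1, c * w.2)) ↔ Integrable F := by
  have h2 : Measure.map ((mulEquiv c hc).prodCongr (mulEquiv c hc)) volume =
      ENNReal.ofReal ((‖c‖ ^ 4)⁻¹) • (volume : Measure (ℂ × ℂ)) := map_mul_volume2 hc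
  have hpos : 0 < ‖c‖ ^ 4 := by positivity
  have h3 : Integrable F (ENNReal.ofReal ((‖c‖ ^ 4)⁻¹) • (volume : Measure (ℂ × ℂ))) ↔
      Integrable F := by
    apply integrable_smul_measure
    · simp [ENNReal.ofReal_eq_zero, not_le.2 hpos]
    · exact ENNReal.ofReal_ne_top
  rw [← h3, ← h2, integrable_map_equiv]
  rfl

/-- `∫ Q = ∫∫ |z|^2 Q(u z, z)` with `z` the outer variable. -/
theorem polar2 (Q : ℂ × ℂ → E) (hm : StronglyMeasurable Q) (hQ : Integrable Q) :
    Integrable (fun q : ℂ × ℂ => ‖q.1‖ ^ 2 • Q (q.1 * q.2, q.1)) ∧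
    ∫ q : ℂ × ℂ, ‖q.1‖ ^ 2 • Q (q.1 * q.2, q.1) = ∫ w, Q w := by
  -- swap
  have hQs : Integrable (fun w : ℂ × ℂ => Q (w.2, w.1)) := hQ.swap
  have hGm : StronglyMeasurable (fun q : ℂ × ℂ => ‖q.1‖ ^ 2 • Q (q.1 * q.2, q.1)) := by
    apply StronglyMeasurable.smul
    · exact (measurable_fst.norm.pow_const 2).stronglyMeasurable
    · exact hm.comp_measurable ((measurable_fst.mul measurable_snd).prodMk measurable_fst)
  have hne : ∀ᵐ z : ℂ, z ≠ 0 := by
    simp [ae_iff, measure_singleton]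
  have h1 : ∀ᵐ z : ℂ, Integrable (fun x : ℂ => Q (x, z)) := hQs.prod_right_ae
  have hslice : ∀ᵐ z : ℂ, Integrable (fun u : ℂ => ‖z‖ ^ 2 • Q (z * u, z)) ∧
      (∫ u : ℂ, ‖‖z‖ ^ 2 • Q (z * u, z)‖) = ∫ x : ℂ, ‖Q (x, z)‖ := by
    filter_upwards [hne, h1] with z hz hz1
    constructor
    · exact ((integrable_scale hz (fun x => Q (x, z))).2 hz1).smul _
    · have e : ∀ u : ℂ, ‖‖z‖ ^ 2 • Q (z * u, z)‖ = ‖z‖ ^ 2 * ‖Q (z * u, z)‖ := by
        intro u
        rw [norm_smul, Real.norm_of_nonneg (by positivity)]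
      simp_rw [e]
      rw [integral_const_mul, integral_scale hz (fun x => ‖Q (x, z)‖), smul_eq_mul,
        ← mul_assoc, mul_inv_cancel₀ (by positivity), one_mul]
  have hG : Integrable (fun q : ℂ × ℂ => ‖q.1‖ ^ 2 • Q (q.1 * q.2, q.1)) := by
    rw [Measure.volume_eq_prod, integrable_prod_iff hGm.aestronglyMeasurable]
    refine ⟨hslice.mono fun z hz => hz.1, ?_⟩
    have h2 : Integrable (fun z : ℂ => ∫ x : ℂ, ‖Q (x, z)‖) := hQs.norm.integral_prod_left
    exact h2.congr (hslice.mono fun z hz => hz.2.symm)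
  refine ⟨hG, ?_⟩
  rw [Measure.volume_eq_prod, integral_prod _ (by rw [← Measure.volume_eq_prod]; exact hG)]
  have h3 : ∫ w, Q w ∂((volume : Measure ℂ).prod volume) = ∫ z : ℂ, ∫ x : ℂ, Q (x, z) := by
    rw [← integral_prod_swap, integral_prod _ (by rw [← Measure.volume_eq_prod]; exact hQs)]
    rfl
  rw [h3]
  apply integral_congr_ae
  filter_upwards [hne] with z hz
  rw [integral_smul, integral_scale hz (fun x => Q (x, z)), smul_smul,
    mul_inv_cancel₀ (by positivity), one_smul]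

/-- `(y, (x, z)) ↦ (x, (y, z))`. -/
def perm3 : ℂ × ℂ × ℂ ≃ᵐ ℂ × ℂ × ℂ where
  toFun q := (q.2.1, q.1, q.2.2)
  invFun q := (q.2.1, q.1, q.2.2)
  left_inv _ := rfl
  right_inv _ := rfl
  measurable_toFun := by
    simp only [Equiv.coe_fn_mk]
    exact (measurable_snd.fst).prodMk (measurable_fst.prodMk measurable_snd.snd)
  measurable_invFun := by
    simp only [Equiv.coe_fn_symm_mk]
    exact (measurable_snd.fst).prodMk (measurable_fst.prodMk measurable_snd.snd)

theorem perm3_preserving : MeasurePreserving (perm3 : ℂ × ℂ × ℂ → ℂ × ℂ × ℂ) volume volume := by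
  have h1 : MeasurePreserving (MeasurableEquiv.prodAssoc : (ℂ × ℂ) × ℂ ≃ᵐ ℂ × ℂ × ℂ)
      volume volume := by
    exact measurePreserving_prodAssoc (volume : Measure ℂ) (volume : Measure ℂ)
      (volume : Measure ℂ)
  have h2 : MeasurePreserving (Prod.map (Prod.swap : ℂ × ℂ → ℂ × ℂ) (id : ℂ → ℂ))
      volume volume := by
    have hs : MeasurePreserving (Prod.swap : ℂ × ℂ → ℂ × ℂ) volume volume :=
      Measure.measurePreserving_swap
    exact hs.prod (MeasurePreserving.id volume)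
  have h3 := h1.comp (h2.comp (h1.symm _))
  exact h3

theorem polar3 (F : ℂ × ℂ × ℂ → E) (hm : StronglyMeasurable F) (hF : Integrable F) :
    Integrable (fun q : ℂ × ℂ × ℂ => ‖q.1‖ ^ 4 • F (q.1 * q.2.1, q.1, q.1 * q.2.2)) ∧
    ∫ q : ℂ × ℂ × ℂ, ‖q.1‖ ^ 4 • F (q.1 * q.2.1, q.1, q.1 * q.2.2) = ∫ w, F w := by
  have hFs : Integrable (fun q : ℂ × ℂ × ℂ => F (q.2.1, q.1, q.2.2)) :=
    (perm3_preserving.integrable_comp_emb perm3.measurableEmbedding).2 hF
  have hFi : ∫ q : ℂ × ℂ × ℂ, F (q.2.1, q.1, q.2.2) = ∫ w, F w :=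
    perm3_preserving.integral_comp perm3.measurableEmbedding F
  have hGm : StronglyMeasurable
      (fun q : ℂ × ℂ × ℂ => ‖q.1‖ ^ 4 • F (q.1 * q.2.1, q.1, q.1 * q.2.2)) := by
    apply StronglyMeasurable.smul
    · exact (measurable_fst.norm.pow_const 4).stronglyMeasurable
    · exact hm.comp_measurable ((measurable_fst.mul measurable_snd.fst).prodMk
        (measurable_fst.prodMk (measurable_fst.mul measurable_snd.snd)))
  have hne : ∀ᵐ z : ℂ, z ≠ 0 := by
    simp [ae_iff, measure_singleton]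
  have h1 : ∀ᵐ y : ℂ, Integrable (fun w : ℂ × ℂ => F (w.1, y, w.2)) := hFs.prod_right_ae
  have hslice : ∀ᵐ y : ℂ, Integrable (fun w : ℂ × ℂ => ‖y‖ ^ 4 • F (y * w.1, y, y * w.2)) ∧
      (∫ w : ℂ × ℂ, ‖‖y‖ ^ 4 • F (y * w.1, y, y * w.2)‖) =
        ∫ w : ℂ × ℂ, ‖F (w.1, y, w.2)‖ := by
    filter_upwards [hne, h1] with y hy hy1
    constructor
    · exact ((integrable_scale2 hy (fun w => F (w.1, y, w.2))).2 hy1).smul _
    · have e : ∀ w : ℂ × ℂ, ‖‖y‖ ^ 4 • F (y * w.1, y, y * w.2)‖ =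
          ‖y‖ ^ 4 * ‖F (y * w.1, y, y * w.2)‖ := by
        intro u
        rw [norm_smul, Real.norm_of_nonneg (by positivity)]
      simp_rw [e]
      rw [integral_const_mul, integral_scale2 hy (fun w => ‖F (w.1, y, w.2)‖), smul_eq_mul,
        ← mul_assoc, mul_inv_cancel₀ (by positivity), one_mul]
  have hG : Integrable
      (fun q : ℂ × ℂ × ℂ => ‖q.1‖ ^ 4 • F (q.1 * q.2.1, q.1, q.1 * q.2.2)) := by
    rw [Measure.volume_eq_prod, integrable_prod_iff hGm.aestronglyMeasurable]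
    refine ⟨hslice.mono fun z hz => hz.1, ?_⟩
    have h2 : Integrable (fun y : ℂ => ∫ w : ℂ × ℂ, ‖F (w.1, y, w.2)‖) :=
      hFs.norm.integral_prod_left
    exact h2.congr (hslice.mono fun z hz => hz.2.symm)
  refine ⟨hG, ?_⟩
  rw [Measure.volume_eq_prod, integral_prod _ (by rw [← Measure.volume_eq_prod]; exact hG)]
  have h3 : ∫ w, F w = ∫ y : ℂ, ∫ w : ℂ × ℂ, F (w.1, y, w.2) := by
    rw [← hFi, Measure.volume_eq_prod,
      integral_prod _ (by rw [← Measure.volume_eq_prod]; exact hFs)]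
  rw [← Measure.volume_eq_prod, h3]
  apply integral_congr_ae
  filter_upwards [hne] with y hy
  rw [integral_smul, integral_scale2 hy (fun w => F (w.1, y, w.2)), smul_smul,
    mul_inv_cancel₀ (by positivity), one_smul]

end

end Pool.Agent.helper67.AZ
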