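import Pool.Agent.helper67.AZ.P4
import Pool.Agent.helper67.AZ.Scale
import Pool.Agent.helper11.AZ.P2

/-! MP_cf8c5a_ag, P7: evaluation at `s = -3/8`. -/

open MeasureTheory

namespace Pool.Agent.helper67.AZ

theorem pw_real {r : ℝ} (hr : r ≠ 0) (x : ℂ) : pw (r : ℂ) x = ((‖x‖ ^ r : ℝ) : ℂ) := by
  by_cases hx : x = 0
  · subst hx
    rw [pw_zero, norm_zero, Real.zero_rpow hr, Complex.ofReal_zero]
  · rw [pw, if_neg hx, Real.rpow_def_of_pos (norm_pos_iff.2 hx)]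
    push_cast
    congr 1
    ring

theorem integrableOn_norm_rpow {α : ℝ} (hα : α < 2) (r : ℝ) :
    IntegrableOn (fun x : ℂ => ‖x‖ ^ (-α)) (Metric.ball 0 r) := by
  rcases le_or_gt r 0 with hr | hr
  · rw [Metric.ball_eq_empty.2 hr]
    exact integrableOn_empty
  rw [integrableOn_fun_norm_addHaar (μ := (volume : Measure ℂ)) (f := fun y => y ^ (-α))]
  have h : IntegrableOn (fun y : ℝ => y ^ (1 - α)) (Set.Ioo 0 r) :=
    (intervalIntegral.integrableOn_Ioo_rpow_iff hr).2 (by linarith)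
  refine h.congr_fun ?_ measurableSet_Ioo
  intro y hy
  simp only [Complex.finrank_real_complex, Nat.add_one_sub_one, pow_one, smul_eq_mul]
  rw [sub_eq_add_neg, Real.rpow_add hy.1, Real.rpow_one]

section

variable {ψ : ℂ → ℂ} {L : NNReal} {R : ℝ}

theorem integrable_of_bound {g : ℂ → ℂ} (hg : AEStronglyMeasurable g volume) {C R : ℝ}
    (h1 : ∀ y, ‖g y‖ ≤ C * ‖y‖ ^ (-1 : ℝ)) (h2 : ∀ y, R < ‖y‖ → g y = 0) : Integrable g := by
  have h3 : IntegrableOn g (Metric.ball 0 (R + 1)) := by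
    refine Integrable.mono' ((integrableOn_norm_rpow (α := 1) (by norm_num) (R + 1)).const_mul C)
      hg.restrict (Filter.Eventually.of_forall h1)
  rw [← integrableOn_iff_integrable_of_support_subset (s := Metric.ball 0 (R + 1))]
  · exact h3
  · intro y hy
    rw [Metric.mem_ball, dist_zero_right]
    by_contra h
    push Not at h
    exact hy (h2 y (by linarith))

/-- the weight `|y|^{-2}` as a complex number -/
noncomputable def w2 (y : ℂ) : ℂ := ((‖y‖ ^ (-2 : ℝ) : ℝ) : ℂ)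

theorem w2_norm (y : ℂ) : ‖w2 y‖ = ‖y‖ ^ (-2 : ℝ) := by
  rw [w2, Complex.norm_real, Real.norm_of_nonneg (Real.rpow_nonneg (norm_nonneg _) _)]

theorem w2_measurable : Measurable w2 :=
  Complex.measurable_ofReal.comp (measurable_norm.pow_const _)

theorem kappa_integrable (hL : LipschitzWith L ψ) (hR : ∀ y, R < ‖y‖ → ψ y = 0) (hR0 : 0 ≤ R) :
    Integrable (fun y => w2 y * (ψ (2 * y) - ψ y)) := by
  refine integrable_of_bound (C := L) (R := R) ?_ ?_ ?_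
  · have : Continuous ψ := hL.continuous
    exact (w2_measurable.mul (by fun_prop)).aestronglyMeasurable
  · intro y
    rw [norm_mul, w2_norm]
    have h := hL.dist_le_mul (2 * y) y
    rw [dist_eq_norm, dist_eq_norm, show 2 * y - y = y by ring] at h
    have e : ‖y‖ ^ (-2 : ℝ) * ‖y‖ = ‖y‖ ^ (-1 : ℝ) := by
      rw [rpow_aux (κ := -1) (by norm_num) (norm_nonneg y)]
      norm_num
      ring
    calc ‖y‖ ^ (-2 : ℝ) * ‖ψ (2 * y) - ψ y‖ ≤ ‖y‖ ^ (-2 : ℝ) * (L * ‖y‖) := by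
          gcongr
      _ = L * ‖y‖ ^ (-1 : ℝ) := by rw [← e]; ring
  · intro y hy
    have h1 : ψ y = 0 := hR y hy
    have h2 : ψ (2 * y) = 0 := by
      apply hR
      rw [norm_mul]
      simp
      linarith
    rw [h1, h2, sub_zero, mul_zero]

theorem kappa_zero (hL : LipschitzWith L ψ) (hR : ∀ y, R < ‖y‖ → ψ y = 0)
    (h0 : ψ 0 = 0) : ∫ y, w2 y * (ψ (2 * y) - ψ y) = 0 := by
  have hi : Integrable (fun y => w2 y * ψ y) := by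
    refine integrable_of_bound (C := L) (R := R) ?_ ?_ ?_
    · have : Continuous ψ := hL.continuous
      exact (w2_measurable.mul (by fun_prop)).aestronglyMeasurable
    · intro y
      rw [norm_mul, w2_norm]
      have h := hL.dist_le_mul y 0
      rw [dist_eq_norm, dist_eq_norm, h0, sub_zero, sub_zero] at h
      have e : ‖y‖ ^ (-2 : ℝ) * ‖y‖ = ‖y‖ ^ (-1 : ℝ) := by
        rw [rpow_aux (κ := -1) (by norm_num) (norm_nonneg y)]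
        norm_num
        ring
      calc ‖y‖ ^ (-2 : ℝ) * ‖ψ y‖ ≤ ‖y‖ ^ (-2 : ℝ) * (L * ‖y‖) := by
            gcongr
        _ = L * ‖y‖ ^ (-1 : ℝ) := by rw [← e]; ring
    · intro y hy
      rw [hR y hy, mul_zero]
  have h2 : (2 : ℂ) ≠ 0 := two_ne_zero
  have e : ∀ y : ℂ, w2 y * ψ (2 * y) = 4 * (w2 (2 * y) * ψ (2 * y)) := by
    intro y
    have : w2 y = 4 * w2 (2 * y) := by
      unfold w2
      rw [norm_mul, Complex.norm_two, Real.mul_rpow (by norm_num) (norm_nonneg _)]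
      push_cast
      have : ((2 : ℝ) ^ (-2 : ℝ)) = 1 / 4 := by
        rw [Real.rpow_neg (by norm_num)]
        norm_num
      rw [show (((2 : ℝ) ^ (-2 : ℝ) : ℝ) : ℂ) = 1 / 4 by rw [this]; push_cast; rfl]
      ring
    rw [this]
    ring
  have hi2 : Integrable (fun y => w2 y * ψ (2 * y)) := by
    simp_rw [e]
    exact ((integrable_scale h2 (fun y => w2 y * ψ y)).2 hi).const_mul 4
  have hint : ∫ y, w2 y * ψ (2 * y) = ∫ y, w2 y * ψ y := by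
    simp_rw [e]
    rw [integral_const_mul, integral_scale h2 (fun y => w2 y * ψ y)]
    simp only [Complex.norm_two, Complex.real_smul, Complex.ofReal_inv, Complex.ofReal_pow,
      Complex.ofReal_ofNat]
    ring
  simp_rw [mul_sub]
  rw [integral_sub hi2 hi, hint, sub_self]

end

section

variable {φ : ℂ × ℂ × ℂ → ℂ} {L : NNReal} {R : ℝ}

/-- restriction of `φ` to a complex line -/
def lin (φ : ℂ × ℂ × ℂ → ℂ) (ξ ζ : ℂ) (y : ℂ) : ℂ := φ (y * ξ, y, y * ζ)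

theorem lin_lip (hL : LipschitzWith L φ) (ξ ζ : ℂ) :
    LipschitzWith (L * (‖ξ‖₊ + 1 + ‖ζ‖₊)) (lin φ ξ ζ) := by
  apply LipschitzWith.of_dist_le_mul
  intro y y'
  rw [dist_eq_norm, dist_eq_norm]
  have h := phi_lip hL (y * ξ) y (y * ζ) (y' * ξ) y' (y' * ζ)
  rw [← sub_mul, ← sub_mul, norm_mul, norm_mul] at h
  unfold lin
  refine h.trans (le_of_eq ?_)
  push_cast
  ring

theorem lin_zero (hR : ∀ p, φ p ≠ 0 → ‖p‖ ≤ R) (ξ ζ y : ℂ) (hy : R < ‖y‖) : lin φ ξ ζ y = 0 := by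
  by_contra h
  have h1 := hR _ h
  rw [Prod.norm_def, Prod.norm_def] at h1
  have h2 : ‖y‖ ≤ R := le_trans (le_trans (le_max_left _ _) (le_max_right _ _)) h1
  exact absurd hy (not_lt.2 h2)

theorem D0_lin (ξ ζ y : ℂ) : D0 φ (y * ξ) y (y * ζ) = lin φ ξ ζ (2 * y) - lin φ ξ ζ y := by
  unfold D0 lin
  rw [mul_assoc, mul_assoc]

theorem D0_lin_integrable (hL : LipschitzWith L φ) (hR : ∀ p, φ p ≠ 0 → ‖p‖ ≤ R) (hR0 : 0 ≤ R)
    (ξ ζ : ℂ) : Integrable (fun y => w2 y * D0 φ (y * ξ) y (y * ζ)) := by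
  simp_rw [D0_lin]
  exact kappa_integrable (lin_lip hL ξ ζ) (fun y hy => lin_zero hR ξ ζ y hy) hR0

/-- the constant `κ(φ)` -/
noncomputable def kap (φ : ℂ × ℂ × ℂ → ℂ) : ℂ := ∫ y, w2 y * D0 φ (y * 0) y (y * 0)

theorem D0_lin_integral (hL : LipschitzWith L φ) (hR : ∀ p, φ p ≠ 0 → ‖p‖ ≤ R) (hR0 : 0 ≤ R)
    (ξ ζ : ℂ) : ∫ y, w2 y * D0 φ (y * ξ) y (y * ζ) = kap φ := by
  have h1 := D0_lin_integrable hL hR hR0 ξ ζ
  have h2 := D0_lin_integrable hL hR hR0 0 0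
  rw [kap, ← sub_eq_zero, ← integral_sub h1 h2]
  have h3 := kappa_zero (ψ := fun y => lin φ ξ ζ y - lin φ 0 0 y) (R := R)
    ((lin_lip hL ξ ζ).sub (lin_lip hL 0 0)) (fun y hy => by
      simp only [lin_zero hR ξ ζ y hy, lin_zero hR 0 0 y hy, sub_zero]) (by simp [lin])
  refine Eq.trans ?_ h3
  congr 1
  ext y
  rw [D0_lin, D0_lin]
  ring

/-- the point of interest -/
noncomputable abbrev s0 : ℂ := -(3 / 8)

/-- `M(ξ,ζ)` -/
noncomputable def Mf (t : ℝ) (ξ ζ : ℂ) : ℂ := pw (2 * s0) (mf t ξ 1 ζ)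

noncomputable def Qf (t : ℝ) (w : ℂ × ℂ) : ℂ :=
  pw (6 * s0) w.1 * (Kf s0 (2 * w.1) w.2 * (Mf t (4 * w.1) (2 * w.2) - Mf t (2 * w.1) w.2) -
    Kf s0 w.1 w.2 * (Mf t (2 * w.1) (2 * w.2) - Mf t w.1 w.2))

theorem pw_pow (a b : ℂ) (x : ℂ) : pw a x * pw b x = pw (a + b) x := by
  by_cases hx : x = 0
  · simp [pw, hx]
  · rw [pw, pw, pw, if_neg hx, if_neg hx, if_neg hx, ← Complex.exp_add]
    ring_nf

theorem Nf_hom (t : ℝ) (y ξ ζ : ℂ) : Nf t φ s0 (y * ξ) y (y * ζ) =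
    pw (4 * s0) y * (Mf t ξ ζ * D0 φ (y * ξ) y (y * ζ)) := by
  have e : mf t (y * ξ) y (y * ζ) = y * mf t ξ 1 ζ := by unfold mf; ring
  unfold Nf Mf
  rw [e, pw_mul]
  have : pw (4 * s0) y = pw (2 * s0) y * pw (2 * s0) y := by rw [pw_pow]; ring_nf
  rw [this]
  ring

theorem Kf_hom (y ξ ζ : ℂ) : Kf s0 (y * ξ) (y * ζ) = pw (6 * s0) y * Kf s0 ξ ζ := by
  unfold Kf
  rw [← mul_sub, pw_mul, pw_mul]
  have : pw (6 * s0) y = pw (2 * s0) y * pw (4 * s0) y := by rw [pw_pow]; ring_nf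
  rw [this]
  ring

theorem pw_neg6 (y : ℂ) : ((‖y‖ ^ 4 : ℝ) : ℂ) * pw (16 * s0) y = w2 y := by
  have : (16 * s0 : ℂ) = ((-6 : ℝ) : ℂ) := by
    unfold s0; push_cast; norm_num
  rw [this, pw_real (by norm_num), w2, ← Complex.ofReal_mul]
  congr 1
  by_cases hy : y = 0
  · subst hy
    rw [norm_zero, Real.zero_rpow (by norm_num), Real.zero_rpow (by norm_num), mul_zero]
  · have hp : 0 < ‖y‖ := norm_pos_iff.2 hy
    rw [← Real.rpow_natCast, ← Real.rpow_add hp]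
    norm_num

theorem Ef_hom (t : ℝ) (y ξ ζ : ℂ) :
    ‖y‖ ^ 4 • Ef t φ s0 (y * ξ, y, y * ζ) =
      (pw (6 * s0) ξ * Kf s0 (2 * ξ) ζ * Mf t (4 * ξ) (2 * ζ)) *
        (w2 y * D0 φ (y * (4 * ξ)) y (y * (2 * ζ))) -
      (pw (6 * s0) ξ * Kf s0 (2 * ξ) ζ * Mf t (2 * ξ) ζ) *
        (w2 y * D0 φ (y * (2 * ξ)) y (y * ζ)) -
      (pw (6 * s0) ξ * Kf s0 ξ ζ * Mf t (2 * ξ) (2 * ζ)) *
        (w2 y * D0 φ (y * (2 * ξ)) y (y * (2 * ζ))) +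
      (pw (6 * s0) ξ * Kf s0 ξ ζ * Mf t ξ ζ) *
        (w2 y * D0 φ (y * ξ) y (y * ζ)) := by
  have h16 : w2 y = ((‖y‖ ^ 4 : ℝ) : ℂ) * (pw (6 * s0) y * pw (6 * s0) y * pw (4 * s0) y) := by
    rw [← pw_neg6, pw_pow, pw_pow]
    ring_nf
  rw [h16]
  simp only [Ef, Xi]
  have a1 : 2 * (y * ξ) = y * (2 * ξ) := by ring
  have a2 : 2 * (y * ζ) = y * (2 * ζ) := by ring
  have a3 : 2 * (y * (2 * ξ)) = y * (4 * ξ) := by ring
  rw [a1, a2, a3, Kf_hom, Kf_hom, Nf_hom, Nf_hom, Nf_hom, Nf_hom, pw_mul, Complex.real_smul]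
  ring

theorem pw_measurable (s : ℂ) : Measurable (pw s) := by
  unfold pw
  apply Measurable.ite (measurableSet_singleton 0) measurable_const
  fun_prop

theorem Ef_measurable (t : ℝ) (hc : Continuous φ) (s : ℂ) : Measurable (Ef t φ s) := by
  have h6 := pw_measurable (6 * s)
  have h4 := pw_measurable (4 * s)
  have h2 := pw_measurable (2 * s)
  have hcm := hc.measurable
  unfold Ef Xi Kf Nf D0 mf
  fun_prop

theorem int4 {A B C D : ℂ → ℂ} (hA : Integrable A) (hB : Integrable B) (hC : Integrable C)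
    (hD : Integrable D) : ∫ y, (A y - B y - C y + D y) =
      (∫ y, A y) - (∫ y, B y) - (∫ y, C y) + ∫ y, D y := by
  have h1 : Integrable (fun y => A y - B y) := hA.sub hB
  have h2 : Integrable (fun y => A y - B y - C y) := h1.sub hC
  rw [integral_add h2 hD, integral_sub h1 hC, integral_sub hA hB]

theorem Wf_eq_kap (t : ℝ) (hL : LipschitzWith L φ) (hR : ∀ p, φ p ≠ 0 → ‖p‖ ≤ R) (hR0 : 0 ≤ R)
    (hint : Integrable (Ef t φ s0)) :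
    Integrable (fun w => kap φ * Qf t w) ∧ Wf t φ s0 = ∫ w, kap φ * Qf t w := by
  obtain ⟨h1, h2⟩ := polar3 (Ef t φ s0) (Ef_measurable t hL.continuous s0).stronglyMeasurable hint
  have hin : ∀ w : ℂ × ℂ, ∫ y : ℂ, ‖y‖ ^ 4 • Ef t φ s0 (y * w.1, y, y * w.2) =
      kap φ * Qf t w := by
    intro w
    simp_rw [Ef_hom]
    have i1 := (D0_lin_integrable hL hR hR0 (4 * w.1) (2 * w.2)).const_mul
      (pw (6 * s0) w.1 * Kf s0 (2 * w.1) w.2 * Mf t (4 * w.1) (2 * w.2))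
    have i2 := (D0_lin_integrable hL hR hR0 (2 * w.1) w.2).const_mul
      (pw (6 * s0) w.1 * Kf s0 (2 * w.1) w.2 * Mf t (2 * w.1) w.2)
    have i3 := (D0_lin_integrable hL hR hR0 (2 * w.1) (2 * w.2)).const_mul
      (pw (6 * s0) w.1 * Kf s0 w.1 w.2 * Mf t (2 * w.1) (2 * w.2))
    have i4 := (D0_lin_integrable hL hR hR0 w.1 w.2).const_mul
      (pw (6 * s0) w.1 * Kf s0 w.1 w.2 * Mf t w.1 w.2)
    refine (int4 i1 i2 i3 i4).trans ?_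
    rw [integral_const_mul, integral_const_mul, integral_const_mul, integral_const_mul,
      D0_lin_integral hL hR hR0, D0_lin_integral hL hR hR0, D0_lin_integral hL hR hR0,
      D0_lin_integral hL hR hR0]
    unfold Qf
    ring
  have h1' : Integrable (fun q : ℂ × ℂ × ℂ => ‖q.1‖ ^ 4 • Ef t φ s0 (q.1 * q.2.1, q.1, q.1 * q.2.2))
      ((volume : Measure ℂ).prod (volume : Measure (ℂ × ℂ))) := h1
  constructor
  · have h3 := h1'.integral_prod_right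
    refine h3.congr (Filter.Eventually.of_forall fun w => ?_)
    exact hin w
  · rw [Wf, ← h2]
    have h4 := integral_prod_symm _ h1'
    refine Eq.trans h4 ?_
    congr 1
    ext w
    exact hin w

end

/-! ### the two-dimensional integral -/

noncomputable def Pf (q : ℂ) : ℂ := pw (2 * s0) (1 - q)

noncomputable def vf (t : ℝ) (u : ℂ) : ℂ := (1 - (t : ℂ)) + (t : ℂ) * u

noncomputable def w52 (ζ : ℂ) : ℂ := ((‖ζ‖ ^ (-(5 / 2) : ℝ) : ℝ) : ℂ)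

theorem w52_eq (ζ : ℂ) : ((‖ζ‖ ^ 2 : ℝ) : ℂ) * pw (12 * s0) ζ = w52 ζ := by
  have : (12 * s0 : ℂ) = ((-(9 / 2) : ℝ) : ℂ) := by
    unfold s0; push_cast; norm_num
  rw [this, pw_real (by norm_num), w52, ← Complex.ofReal_mul]
  congr 1
  by_cases hy : ζ = 0
  · subst hy
    rw [norm_zero, Real.zero_rpow (by norm_num), Real.zero_rpow (by norm_num), mul_zero]
  · have hp : 0 < ‖ζ‖ := norm_pos_iff.2 hy
    rw [← Real.rpow_natCast, ← Real.rpow_add hp]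
    norm_num

theorem Qf_hom (t : ℝ) (ζ u : ℂ) :
    ‖ζ‖ ^ 2 • Qf t (ζ * u, ζ) =
      (pw (6 * s0) u * pw (2 * s0) (2 * u - 1)) *
        (w52 ζ * (Pf (2 * (ζ * vf t (2 * u))) - Pf (ζ * vf t (2 * u)))) -
      (pw (6 * s0) u * pw (2 * s0) (u - 1)) *
        (w52 ζ * (Pf (2 * (ζ * vf t u)) - Pf (ζ * vf t u))) := by
  have h12 : w52 ζ = ((‖ζ‖ ^ 2 : ℝ) : ℂ) * (pw (6 * s0) ζ * (pw (2 * s0) ζ * pw (4 * s0) ζ)) := by
    rw [← w52_eq, pw_pow, pw_pow]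
    ring_nf
  have m1 : Mf t (4 * (ζ * u)) (2 * ζ) = Pf (2 * (ζ * vf t (2 * u))) := by
    unfold Mf Pf mf vf; congr 1; ring
  have m2 : Mf t (2 * (ζ * u)) ζ = Pf (ζ * vf t (2 * u)) := by
    unfold Mf Pf mf vf; congr 1; ring
  have m3 : Mf t (2 * (ζ * u)) (2 * ζ) = Pf (2 * (ζ * vf t u)) := by
    unfold Mf Pf mf vf; congr 1; ring
  have m4 : Mf t (ζ * u) ζ = Pf (ζ * vf t u) := by
    unfold Mf Pf mf vf; congr 1; ring
  have k1 : Kf s0 (2 * (ζ * u)) ζ = pw (2 * s0) ζ * pw (2 * s0) (2 * u - 1) * pw (4 * s0) ζ := by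
    unfold Kf
    rw [← pw_mul]
    congr 2
    ring
  have k2 : Kf s0 (ζ * u) ζ = pw (2 * s0) ζ * pw (2 * s0) (u - 1) * pw (4 * s0) ζ := by
    unfold Kf
    rw [← pw_mul]
    congr 2
    ring
  simp only [Qf]
  rw [m1, m2, m3, m4, k1, k2, h12, pw_mul, Complex.real_smul]
  ring

theorem Pf_eq (q : ℂ) : Pf q = ((‖1 - q‖ ^ (-(3 / 4) : ℝ) : ℝ) : ℂ) := by
  have : (2 * s0 : ℂ) = ((-(3 / 4) : ℝ) : ℂ) := by
    unfold s0; push_cast; norm_num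
  rw [Pf, this, pw_real (by norm_num)]

theorem F1_integrable : Integrable (fun ζ : ℂ => w52 ζ * (Pf (2 * ζ) - Pf ζ)) := by
  have t1 : Integrable (fun ζ : ℂ => ‖ζ‖ ^ (-(3 / 2) : ℝ) * ‖ζ - 1‖ ^ (-(3 / 4) : ℝ)) :=
    Pool.Agent.helper11.AZ.two_point (by norm_num) (by norm_num) (by norm_num) (by norm_num) (by norm_num)
  have t2 : Integrable (fun ζ : ℂ => ‖2 * ζ‖ ^ (-(3 / 2) : ℝ) * ‖2 * ζ - 1‖ ^ (-(3 / 4) : ℝ)) :=
    (integrable_scale two_ne_zero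
      (fun ζ : ℂ => ‖ζ‖ ^ (-(3 / 2) : ℝ) * ‖ζ - 1‖ ^ (-(3 / 4) : ℝ))).2 t1
  have t3 : Integrable ((Metric.ball (0 : ℂ) (1 / 2)).indicator
      (fun ζ : ℂ => ‖ζ‖ ^ (-(3 / 2) : ℝ))) :=
    (integrableOn_norm_rpow (by norm_num) (1 / 2)).integrable_indicator
      Metric.isOpen_ball.measurableSet
  set C0 : ℝ := cB (-(3 / 4)) 2 (3 / 4) * (2 * (1 / 2 : ℝ) ^ (-(7 / 4) : ℝ)) with hC0
  have hcB : 0 ≤ cB (-(3 / 4)) 2 (3 / 4) := cB_nonneg (by norm_num)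
  have hC00 : 0 ≤ C0 := by
    have : 0 ≤ (1 / 2 : ℝ) ^ (-(7 / 4) : ℝ) := by positivity
    positivity
  have hs : (-(3 / 4) : ℝ) ≤ (2 * s0).re := by
    have : (2 * s0 : ℂ) = ((-(3 / 4) : ℝ) : ℂ) := by
      unfold s0; push_cast; norm_num
    rw [this, Complex.ofReal_re]
  have hM : ‖2 * s0‖ ≤ 3 / 4 := by
    have : (2 * s0 : ℂ) = ((-(3 / 4) : ℝ) : ℂ) := by
      unfold s0; push_cast; norm_num
    rw [this, Complex.norm_real]
    norm_num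
  have hmeas : Measurable (fun ζ : ℂ => w52 ζ * (Pf (2 * ζ) - Pf ζ)) := by
    have h1 := pw_measurable (2 * s0)
    unfold w52 Pf
    fun_prop
  refine Integrable.mono' ((t3.const_mul C0).add ((t1.const_mul 4).add (t2.const_mul 16)))
    hmeas.aestronglyMeasurable (Filter.Eventually.of_forall fun ζ => ?_)
  have a1 : 0 ≤ ‖ζ‖ ^ (-(3 / 2) : ℝ) * ‖ζ - 1‖ ^ (-(3 / 4) : ℝ) := by positivity
  have a2 : 0 ≤ ‖2 * ζ‖ ^ (-(3 / 2) : ℝ) * ‖2 * ζ - 1‖ ^ (-(3 / 4) : ℝ) := by positivity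
  have a3 : 0 ≤ (Metric.ball (0 : ℂ) (1 / 2)).indicator
      (fun ζ : ℂ => ‖ζ‖ ^ (-(3 / 2) : ℝ)) ζ :=
    Set.indicator_nonneg (fun _ _ => Real.rpow_nonneg (norm_nonneg _) _) _
  have hw : ‖w52 ζ‖ = ‖ζ‖ ^ (-(5 / 2) : ℝ) := by
    rw [w52, Complex.norm_real, Real.norm_of_nonneg (Real.rpow_nonneg (norm_nonneg _) _)]
  have e52 : ‖ζ‖ ^ (-(3 / 2) : ℝ) = ‖ζ‖ * ‖ζ‖ ^ (-(5 / 2) : ℝ) := by
    rw [rpow_aux (κ := -(3 / 2)) (by norm_num) (norm_nonneg ζ)]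
    norm_num
  rw [norm_mul, hw]
  show _ ≤ C0 * (Metric.ball (0 : ℂ) (1 / 2)).indicator (fun ζ : ℂ => ‖ζ‖ ^ (-(3 / 2) : ℝ)) ζ +
    (4 * (‖ζ‖ ^ (-(3 / 2) : ℝ) * ‖ζ - 1‖ ^ (-(3 / 4) : ℝ)) +
      16 * (‖2 * ζ‖ ^ (-(3 / 2) : ℝ) * ‖2 * ζ - 1‖ ^ (-(3 / 4) : ℝ)))
  have w0 : 0 ≤ ‖ζ‖ ^ (-(5 / 2) : ℝ) := by positivity
  by_cases hz : ‖ζ‖ < 1 / 4
  · have hin : ζ ∈ Metric.ball (0 : ℂ) (1 / 2) := by
      rw [Metric.mem_ball, dist_zero_right]; linarith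
    rw [Set.indicator_of_mem hin, e52]
    have hn2 : ‖2 * ζ‖ = 2 * ‖ζ‖ := by rw [norm_mul, Complex.norm_two]
    have b1 : 1 / 2 ≤ ‖1 - 2 * ζ‖ := by
      have := norm_sub_norm_le 1 (2 * ζ)
      rw [norm_one, hn2] at this
      linarith
    have b2 : 1 / 2 ≤ ‖1 - ζ‖ := by
      have := norm_sub_norm_le 1 ζ
      rw [norm_one] at this
      linarith
    have b3 : ‖1 - 2 * ζ‖ ≤ 2 := by
      have := norm_sub_le 1 (2 * ζ)
      rw [norm_one, hn2] at this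
      linarith
    have b4 : ‖1 - ζ‖ ≤ 2 := by
      have := norm_sub_le 1 ζ
      rw [norm_one] at this
      linarith
    have hd := pw_diff hs hM b3 b4
    have e7 : (-(3 / 4) : ℝ) - 1 = -(7 / 4) := by norm_num
    have e8 : (1 : ℂ) - 2 * ζ - (1 - ζ) = -ζ := by ring
    rw [e7, e8, norm_neg] at hd
    have c1 : ‖1 - 2 * ζ‖ ^ (-(7 / 4) : ℝ) ≤ (1 / 2 : ℝ) ^ (-(7 / 4) : ℝ) :=
      Real.rpow_le_rpow_of_nonpos (by norm_num) b1 (by norm_num)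
    have c2 : ‖1 - ζ‖ ^ (-(7 / 4) : ℝ) ≤ (1 / 2 : ℝ) ^ (-(7 / 4) : ℝ) :=
      Real.rpow_le_rpow_of_nonpos (by norm_num) b2 (by norm_num)
    have hd2 : ‖Pf (2 * ζ) - Pf ζ‖ ≤ C0 * ‖ζ‖ := by
      unfold Pf
      refine hd.trans ?_
      calc _ ≤ cB (-(3 / 4)) 2 (3 / 4) * ‖ζ‖ *
            ((1 / 2 : ℝ) ^ (-(7 / 4) : ℝ) + (1 / 2 : ℝ) ^ (-(7 / 4) : ℝ)) := by gcongr
        _ = _ := by rw [hC0]; ring
    have : ‖ζ‖ ^ (-(5 / 2) : ℝ) * ‖Pf (2 * ζ) - Pf ζ‖ ≤ ‖ζ‖ ^ (-(5 / 2) : ℝ) * (C0 * ‖ζ‖) := by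
      gcongr
    rw [e52] at a1
    linarith
  · push Not at hz
    have hzpos : 0 < ‖ζ‖ := by linarith
    have d1 : ‖ζ‖ ^ (-(5 / 2) : ℝ) ≤ 4 * ‖ζ‖ ^ (-(3 / 2) : ℝ) := by
      rw [e52]
      nlinarith
    have d2 : ‖ζ‖ ^ (-(3 / 2) : ℝ) ≤ 4 * ‖2 * ζ‖ ^ (-(3 / 2) : ℝ) := by
      rw [norm_mul, Complex.norm_two, Real.mul_rpow (by norm_num) hzpos.le]
      have : (1 : ℝ) ≤ 4 * 2 ^ (-(3 / 2) : ℝ) := by
        have h1 : (2 : ℝ) ^ (-(2 : ℝ)) ≤ 2 ^ (-(3 / 2) : ℝ) :=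
          Real.rpow_le_rpow_of_exponent_le (by norm_num) (by norm_num)
        have h2 : (2 : ℝ) ^ (-(2 : ℝ)) = 1 / 4 := by
          rw [Real.rpow_neg (by norm_num)]
          norm_num
        linarith
      have h0 : 0 ≤ ‖ζ‖ ^ (-(3 / 2) : ℝ) := by positivity
      nlinarith
    have n1 : ‖Pf (2 * ζ)‖ = ‖2 * ζ - 1‖ ^ (-(3 / 4) : ℝ) := by
      rw [Pf_eq, Complex.norm_real, Real.norm_of_nonneg (by positivity), norm_sub_rev]
    have n2 : ‖Pf ζ‖ = ‖ζ - 1‖ ^ (-(3 / 4) : ℝ) := by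
      rw [Pf_eq, Complex.norm_real, Real.norm_of_nonneg (by positivity), norm_sub_rev]
    have hn : ‖Pf (2 * ζ) - Pf ζ‖ ≤ ‖2 * ζ - 1‖ ^ (-(3 / 4) : ℝ) + ‖ζ - 1‖ ^ (-(3 / 4) : ℝ) := by
      rw [← n1, ← n2]; exact norm_sub_le _ _
    have p1 : 0 ≤ ‖2 * ζ - 1‖ ^ (-(3 / 4) : ℝ) := by positivity
    have p2 : 0 ≤ ‖ζ - 1‖ ^ (-(3 / 4) : ℝ) := by positivity
    have p3 : 0 ≤ ‖ζ‖ ^ (-(3 / 2) : ℝ) := by positivity
    have p4 : 0 ≤ ‖2 * ζ‖ ^ (-(3 / 2) : ℝ) := by positivity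
    calc ‖ζ‖ ^ (-(5 / 2) : ℝ) * ‖Pf (2 * ζ) - Pf ζ‖
        ≤ (4 * ‖ζ‖ ^ (-(3 / 2) : ℝ)) *
          (‖2 * ζ - 1‖ ^ (-(3 / 4) : ℝ) + ‖ζ - 1‖ ^ (-(3 / 4) : ℝ)) := by gcongr
      _ = 4 * (‖ζ‖ ^ (-(3 / 2) : ℝ) * ‖ζ - 1‖ ^ (-(3 / 4) : ℝ)) +
          4 * (‖ζ‖ ^ (-(3 / 2) : ℝ) * ‖2 * ζ - 1‖ ^ (-(3 / 4) : ℝ)) := by ring
      _ ≤ 4 * (‖ζ‖ ^ (-(3 / 2) : ℝ) * ‖ζ - 1‖ ^ (-(3 / 4) : ℝ)) +
          4 * ((4 * ‖2 * ζ‖ ^ (-(3 / 2) : ℝ)) * ‖2 * ζ - 1‖ ^ (-(3 / 4) : ℝ)) := by gcongr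
      _ ≤ _ := by nlinarith

/-- the constant `Y1` -/
noncomputable def Y1 : ℂ := ∫ ζ : ℂ, w52 ζ * (Pf (2 * ζ) - Pf ζ)

theorem w52_mul (v ζ : ℂ) : w52 (v * ζ) = w52 v * w52 ζ := by
  unfold w52
  rw [norm_mul, Real.mul_rpow (norm_nonneg _) (norm_nonneg _), Complex.ofReal_mul]

theorem Fv_integrable (v : ℂ) :
    Integrable (fun ζ : ℂ => w52 ζ * (Pf (2 * (ζ * v)) - Pf (ζ * v))) := by
  by_cases hv : v = 0
  · subst hv
    simp
  · have h := (integrable_scale hv (fun ζ : ℂ => w52 ζ * (Pf (2 * ζ) - Pf ζ))).2 F1_integrable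
    have hw : w52 v ≠ 0 := by
      unfold w52
      rw [Complex.ofReal_ne_zero]
      exact (Real.rpow_pos_of_pos (norm_pos_iff.2 hv) _).ne'
    refine (h.const_mul (w52 v)⁻¹).congr (Filter.Eventually.of_forall fun ζ => ?_)
    simp only
    rw [w52_mul, mul_comm v ζ]
    field_simp

theorem Fv_integral (v : ℂ) :
    ∫ ζ : ℂ, w52 ζ * (Pf (2 * (ζ * v)) - Pf (ζ * v)) =
      ((‖v‖ ^ ((1 / 2) : ℝ) : ℝ) : ℂ) * Y1 := by
  by_cases hv : v = 0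
  · subst hv
    simp
  · have h := integral_scale hv (fun ζ : ℂ => w52 ζ * (Pf (2 * ζ) - Pf ζ))
    have hp : 0 < ‖v‖ := norm_pos_iff.2 hv
    have hw : w52 v ≠ 0 := by
      unfold w52
      rw [Complex.ofReal_ne_zero]
      exact (Real.rpow_pos_of_pos hp _).ne'
    have e : ∀ ζ : ℂ, w52 ζ * (Pf (2 * (ζ * v)) - Pf (ζ * v)) =
        (w52 v)⁻¹ * (w52 (v * ζ) * (Pf (2 * (v * ζ)) - Pf (v * ζ))) := by
      intro ζ
      rw [w52_mul, mul_comm v ζ]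
      field_simp
    simp_rw [e]
    rw [integral_const_mul, h, ← Y1, Complex.real_smul, ← mul_assoc]
    congr 1
    unfold w52
    rw [← Complex.ofReal_inv, ← Complex.ofReal_mul]
    congr 1
    rw [← Real.rpow_neg hp.le, ← Real.rpow_natCast, ← Real.rpow_neg hp.le, ← Real.rpow_add hp]
    norm_num

theorem pw6_eq (u : ℂ) : pw (6 * s0) u = ((‖u‖ ^ (-(9 / 4) : ℝ) : ℝ) : ℂ) := by
  have : (6 * s0 : ℂ) = ((-(9 / 4) : ℝ) : ℂ) := by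
    unfold s0; push_cast; norm_num
  rw [this, pw_real (by norm_num)]

theorem pw2_eq (u : ℂ) : pw (2 * s0) u = ((‖u‖ ^ (-(3 / 4) : ℝ) : ℝ) : ℂ) := by
  have : (2 * s0 : ℂ) = ((-(3 / 4) : ℝ) : ℂ) := by
    unfold s0; push_cast; norm_num
  rw [this, pw_real (by norm_num)]

theorem Qf_measurable (t : ℝ) : Measurable (Qf t) := by
  have h6 := pw_measurable (6 * s0)
  have h4 := pw_measurable (4 * s0)
  have h2 := pw_measurable (2 * s0)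
  unfold Qf Kf Mf mf
  fun_prop

/-- the integrand of `H` -/
noncomputable def gH (t : ℝ) (u : ℂ) : ℝ :=
  ‖u‖ ^ (-(9 / 4) : ℝ) *
    (‖u - 1‖ ^ (-(3 / 4) : ℝ) * ‖(1 - (t : ℂ)) + (t : ℂ) * u‖ ^ ((1 / 2) : ℝ)
      - (1 - t) ^ ((1 / 2) : ℝ))

theorem Qf_integral_zero {t : ℝ} (hQ : Integrable (Qf t)) (hg : Integrable (gH t))
    (hH : H t = 0) : ∫ w, Qf t w = 0 := by
  obtain ⟨h1, h2⟩ := polar2 (Qf t) (Qf_measurable t).stronglyMeasurable hQ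
  have h1' : Integrable (fun q : ℂ × ℂ => ‖q.1‖ ^ 2 • Qf t (q.1 * q.2, q.1))
      ((volume : Measure ℂ).prod (volume : Measure ℂ)) := h1
  rw [← h2]
  have h3 := integral_prod_symm _ h1'
  refine Eq.trans h3 ?_
  have hin : ∀ u : ℂ, ∫ ζ : ℂ, ‖ζ‖ ^ 2 • Qf t (ζ * u, ζ) =
      Y1 * (((2 : ℝ) ^ ((9 / 4) : ℝ) * gH t (2 * u) - gH t u : ℝ) : ℂ) := by
    intro u
    simp_rw [Qf_hom]
    have i1 := (Fv_integrable (vf t (2 * u))).const_mul (pw (6 * s0) u * pw (2 * s0) (2 * u - 1))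
    have i2 := (Fv_integrable (vf t u)).const_mul (pw (6 * s0) u * pw (2 * s0) (u - 1))
    rw [integral_sub i1 i2, integral_const_mul, integral_const_mul, Fv_integral, Fv_integral,
      pw6_eq, pw2_eq, pw2_eq]
    have e : (2 : ℝ) ^ ((9 / 4) : ℝ) * gH t (2 * u) - gH t u =
        ‖u‖ ^ (-(9 / 4) : ℝ) * ‖2 * u - 1‖ ^ (-(3 / 4) : ℝ) * ‖vf t (2 * u)‖ ^ ((1 / 2) : ℝ) -
        ‖u‖ ^ (-(9 / 4) : ℝ) * ‖u - 1‖ ^ (-(3 / 4) : ℝ) * ‖vf t u‖ ^ ((1 / 2) : ℝ) := by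
      have e1 : (2 : ℝ) ^ ((9 / 4) : ℝ) * ‖2 * u‖ ^ (-(9 / 4) : ℝ) = ‖u‖ ^ (-(9 / 4) : ℝ) := by
        rw [norm_mul, Complex.norm_two, Real.mul_rpow (by norm_num) (norm_nonneg _), ← mul_assoc,
          ← Real.rpow_add (by norm_num)]
        norm_num
      unfold gH vf
      rw [← mul_assoc, e1]
      ring
    rw [e]
    push_cast
    ring
  have hfun : (fun u : ℂ => ∫ ζ : ℂ, ‖ζ‖ ^ 2 • Qf t (ζ * u, ζ)) =
      fun u => Y1 * (((2 : ℝ) ^ ((9 / 4) : ℝ) * gH t (2 * u) - gH t u : ℝ) : ℂ) := by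
    ext u; exact hin u
  show ∫ u : ℂ, (∫ ζ : ℂ, ‖ζ‖ ^ 2 • Qf t (ζ * u, ζ)) = 0
  rw [hfun, integral_const_mul, integral_complex_ofReal]
  have hg2 : Integrable (fun u => gH t (2 * u)) := (integrable_scale two_ne_zero (gH t)).2 hg
  have hz : ∫ u, gH t u = 0 := hH
  rw [integral_sub (hg2.const_mul _) hg, integral_const_mul, integral_scale two_ne_zero (gH t), hz]
  simp

theorem Wf_zero_of {t : ℝ} (hg : Integrable (gH t)) {φ : ℂ × ℂ × ℂ → ℂ} {L : NNReal}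
    (hL : LipschitzWith L φ) (hφ : HasCompactSupport φ)
    (hint : Integrable (Ef t φ (-(3 / 8)))) (hH : H t = 0) : Wf t φ (-(3 / 8)) = 0 := by
  obtain ⟨R0, hR0⟩ := hφ.isCompact.isBounded.exists_norm_le
  have hR : ∀ p, φ p ≠ 0 → ‖p‖ ≤ max R0 0 := fun p hp =>
    (hR0 p (subset_tsupport _ hp)).trans (le_max_left _ _)
  obtain ⟨h1, h2⟩ := Wf_eq_kap t hL hR (le_max_right _ _) hint
  rw [h2, integral_const_mul]
  by_cases hk : kap φ = 0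
  · rw [hk, zero_mul]
  · have hQ : Integrable (Qf t) := by
      have := h1.const_mul (kap φ)⁻¹
      refine this.congr (Filter.Eventually.of_forall fun w => ?_)
      simp only
      rw [← mul_assoc, inv_mul_cancel₀ hk, one_mul]
    rw [Qf_integral_zero hQ hg hH, mul_zero]

end Pool.Agent.helper67.AZ
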